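import Pool.Agent.V5helper57.Uni.Upper

/-!
# The joint normal law of the sums over several blocks of primes
-/

set_option autoImplicit false

namespace Pool.Agent.V5helper57.Uni

open Finset Filter Topology MeasureTheory ProbabilityTheory Pool.Agent.Y722.HS Pool.Agent.X280.BP Pool.Agent.X280.UC
open Pool.Agent.X280.HG
open Pool.Agent.V5helper57.Win Pool.Agent.V5helper57.Gen Pool.Agent.V5helper57.Zet
open scoped NNReal ENNReal

variable {ι : Type} [Fintype ι] [DecidableEq ι]

/-- Blocks of primes. -/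
structure Blk (ι : Type) (n : ℕ) where
  I : Fin n → Finset ℕ
  y : ℕ
  H : ℕ
  Z : ∀ p : ℕ, (ι → ZMod p) → ℝ
  σ : Fin n → ℝ

/-- The data are admissible with the precision `k`. -/
structure Blk.Ok {n : ℕ} (B : Blk ι n) (k : ℕ) : Prop where
  disj : ∀ i j, i ≠ j → Disjoint (B.I i) (B.I j)
  prime : ∀ i, ∀ p ∈ B.I i, p.Prime
  le : ∀ i, ∀ p ∈ B.I i, p ≤ B.y
  pos : ∀ i, 0 < B.σ i
  bound : ∀ i, ∀ p ∈ B.I i, ∀ c, |B.Z p c| ≤ B.σ i / (k + 1)
  mean : ∀ i, ∀ p ∈ B.I i, ∀ [NeZero p], EM p (B.Z p) = 0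
  var : ∀ i, VP B.Z (B.I i) = B.σ i ^ 2
  size : k ≤ B.y
  high : B.y ^ k ≤ B.H

/-- The normalised sums. -/
noncomputable def Blk.vec {n : ℕ} (B : Blk ι n) (c : ι → ℤ) (i : Fin n) : ℝ := SP B.Z (B.I i) c / B.σ i

theorem Blk.Ok.anti {n : ℕ} {B : Blk ι n} {k l : ℕ} (h : B.Ok k) (hl : l ≤ k) : B.Ok l := by
  have h1 : (l : ℝ) ≤ k := by exact_mod_cast hl
  refine ⟨h.disj, h.prime, h.le, h.pos, fun i p hp c => (h.bound i p hp c).trans ?_, h.mean, h.var, hl.trans h.size, ?_⟩
  · have := h.pos i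
    gcongr
  · rcases Nat.eq_zero_or_pos k with rfl | hk0
    · have : l = 0 := by omega
      subst this
      exact h.high
    · have h4 : 1 ≤ B.y := by have := h.size; omega
      exact (Nat.pow_le_pow_right h4 hl).trans h.high

/-- **The characteristic functions.** -/
theorem Blk.char {n : ℕ} (τ : Fin n → ℝ) (hτ : 0 < ∑ i, τ i ^ 2) {ε : ℝ} (hε : 0 < ε) :
    ∃ k0 : ℕ, ∀ B : Blk ι n, B.Ok k0 →
      ‖EBc B.H (fun c => Complex.exp (((∑ i, τ i * B.vec c i : ℝ) : ℂ) * Complex.I)) -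
        ((Real.exp (-((∑ i, τ i ^ 2) / 2)) : ℝ) : ℂ)‖ ≤ ε := by
  classical
  obtain ⟨s, hs⟩ : ∃ s : ℝ, s = √(∑ i, τ i ^ 2) := ⟨_, rfl⟩
  have hs0 : 0 < s := by rw [hs]; exact Real.sqrt_pos.2 hτ
  have hss : s ^ 2 = ∑ i, τ i ^ 2 := by rw [hs]; exact Real.sq_sqrt hτ.le
  obtain ⟨K, hK⟩ := unif_char2 (ι := ι) s hε
  refine ⟨K, fun B hB => ?_⟩
  obtain ⟨w, hw⟩ : ∃ w : ℕ → ℝ, w = fun p => ∑ i, if p ∈ B.I i then τ i / (B.σ i * s) else 0 := ⟨_, rfl⟩
  have hwi : ∀ i, ∀ p ∈ B.I i, w p = τ i / (B.σ i * s) := by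
    intro i p hp
    rw [hw]
    simp only
    rw [Finset.sum_eq_single i]
    · rw [if_pos hp]
    · intro j _ hj
      rw [if_neg]
      intro hpj
      exact (Finset.disjoint_left.1 (hB.disj i j (Ne.symm hj)) hp) hpj
    · intro h
      exact absurd (Finset.mem_univ i) h
  have hpd : (Set.univ : Set (Fin n)).PairwiseDisjoint B.I := fun i _ j _ hij => hB.disj i j hij
  have hbU : ∀ f : ℕ → ℝ, ∑ p ∈ Finset.univ.biUnion B.I, f p = ∑ i, ∑ p ∈ B.I i, f p := by
    intro f
    exact Finset.sum_biUnion (fun i _ j _ hij => hB.disj i j hij)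
  have hSP : ∀ c : ι → ℤ, SP (fun p c => w p * B.Z p c) (Finset.univ.biUnion B.I) c = (∑ i, τ i * B.vec c i) / s := by
    intro c
    unfold SP
    rw [hbU, Finset.sum_div]
    refine Finset.sum_congr rfl fun i _ => ?_
    unfold Blk.vec SP
    have hσ := hB.pos i
    have h1 : ∑ p ∈ B.I i, (fun (p : ℕ) (c : ι → ZMod p) => w p * B.Z p c) p (red p c) =
        τ i / (B.σ i * s) * ∑ p ∈ B.I i, B.Z p (red p c) := by
      rw [Finset.mul_sum]
      refine Finset.sum_congr rfl fun p hp => ?_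
      simp only
      rw [hwi i p hp]
    rw [h1]
    field_simp
  have hD : (⟨Finset.univ.biUnion B.I, B.y, B.H, fun p c => w p * B.Z p c, fun c => (∑ i, τ i * B.vec c i) / s, 1⟩ :
      Dat2 ι).Ok K := by
    refine
      { prime := fun p hp => ?_
        le := fun p hp => ?_
        pos := one_pos
        bound := fun p hp c => ?_
        mean := fun p hp _ => ?_
        var := ?_
        size := hB.size
        high := hB.high
        near := ?_ }
    · obtain ⟨i, _, hi⟩ := Finset.mem_biUnion.1 hp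
      exact hB.prime i p hi
    · obtain ⟨i, _, hi⟩ := Finset.mem_biUnion.1 hp
      exact hB.le i p hi
    · obtain ⟨i, _, hi⟩ := Finset.mem_biUnion.1 hp
      show |w p * B.Z p c| ≤ 1 / (K + 1)
      have hσ := hB.pos i
      rw [hwi i p hi, abs_mul, abs_div, abs_of_pos (mul_pos hσ hs0)]
      have h1 : |τ i| ≤ s := by
        rw [hs]
        apply Real.le_sqrt_of_sq_le
        rw [sq_abs]
        exact Finset.single_le_sum (f := fun i => τ i ^ 2) (fun j _ => sq_nonneg _) (Finset.mem_univ i)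
      calc |τ i| / (B.σ i * s) * |B.Z p c| ≤ s / (B.σ i * s) * (B.σ i / (K + 1)) := by
            gcongr
            exact hB.bound i p hi c
        _ = 1 / (K + 1) := by field_simp
    · obtain ⟨i, _, hi⟩ := Finset.mem_biUnion.1 hp
      show EM p (fun c => w p * B.Z p c) = 0
      rw [EM_mul', hB.mean i p hi, mul_zero]
    · show |VP (fun p c => w p * B.Z p c) (Finset.univ.biUnion B.I) - (1 : ℝ) ^ 2| ≤ (1 : ℝ) ^ 2 / (K + 1)
      have e1 : VP (fun p c => w p * B.Z p c) (Finset.univ.biUnion B.I) = 1 := by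
        unfold VP
        rw [hbU]
        have h1 : ∀ i ∈ (Finset.univ : Finset (Fin n)), ∑ p ∈ B.I i, vv (fun p c => w p * B.Z p c) p = τ i ^ 2 / s ^ 2 := by
          intro i _
          have hσ := hB.pos i
          have h2 : ∀ p ∈ B.I i, vv (fun p c => w p * B.Z p c) p = (τ i / (B.σ i * s)) ^ 2 * vv B.Z p := by
            intro p hp
            have : NeZero p := ⟨(hB.prime i p hp).ne_zero⟩
            rw [vv_eq, vv_eq, ← EM_mul', hwi i p hp]
            congr 1
            funext c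
            ring
          rw [Finset.sum_congr rfl h2, ← Finset.mul_sum]
          have h3 := hB.var i
          unfold VP at h3
          rw [h3]
          field_simp
        rw [Finset.sum_congr rfl h1, ← Finset.sum_div, ← hss]
        field_simp
      rw [e1]
      norm_num
      positivity
    · show EB B.H (far (fun c => (∑ i, τ i * B.vec c i) / s)
        (fun c => SP (fun p c => w p * B.Z p c) (Finset.univ.biUnion B.I) c / 1) (1 / (K + 1))) ≤ 1 / (K + 1)
      have e1 : far (fun c => (∑ i, τ i * B.vec c i) / s)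
        (fun c => SP (fun p c => w p * B.Z p c) (Finset.univ.biUnion B.I) c / 1) (1 / (K + 1)) = fun _ => 0 := by
        funext c
        unfold far
        rw [if_pos]
        simp only
        rw [hSP, div_one, sub_self, abs_zero]
        positivity
      rw [e1, EB_const]
      positivity
  have h := hK _ hD
  have e : ∀ c : ι → ℤ, s * ((∑ i, τ i * B.vec c i) / s) = ∑ i, τ i * B.vec c i := fun c => by field_simp
  simp only [e, hss] at h
  exact h

/-- **The joint normal law.** -/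
theorem Blk.weak {n : ℕ} (g : (Fin n → ℝ) → ℝ) (hg : Continuous g) {Mb : ℝ} (hMb : ∀ v, |g v| ≤ Mb) {ε : ℝ} (hε : 0 < ε) :
    ∃ k0 : ℕ, ∀ B : Blk ι n, B.Ok k0 →
      |EB B.H (fun c => g (B.vec c)) - ∫ v, g v ∂(Measure.pi (fun _ : Fin n => gaussianReal 0 1))| ≤ ε := by
  classical
  by_contra hcon
  push Not at hcon
  choose Ds hDs hbad using hcon
  obtain ⟨ν0, hν0⟩ : ∃ ν0 : Measure (EuclideanSpace ℝ (Fin n)),
    ν0 = (Measure.pi (fun _ : Fin n => gaussianReal 0 1)).map (WithLp.toLp 2) := ⟨_, rfl⟩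
  have hm0 : AEMeasurable (WithLp.toLp 2 : (Fin n → ℝ) → EuclideanSpace ℝ (Fin n))
      (Measure.pi (fun _ : Fin n => gaussianReal 0 1)) := (WithLp.measurable_toLp 2 (Fin n → ℝ)).aemeasurable
  have hν0P : IsProbabilityMeasure ν0 := by rw [hν0]; exact Measure.isProbabilityMeasure_map hm0
  obtain ⟨μ, hμ⟩ : ∃ μ : ℕ → ProbabilityMeasure (EuclideanSpace ℝ (Fin n)),
    μ = fun j => ⟨lawE (Ds j).H (Ds j).vec, inferInstance⟩ := ⟨_, rfl⟩
  obtain ⟨ν, hν⟩ : ∃ ν : ProbabilityMeasure (EuclideanSpace ℝ (Fin n)), ν = ⟨ν0, hν0P⟩ := ⟨_, rfl⟩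
  have hcharν : ∀ τ : EuclideanSpace ℝ (Fin n), charFun ν0 τ = ((Real.exp (-((∑ i, τ i ^ 2) / 2)) : ℝ) : ℂ) := by
    intro τ
    rw [hν0, charFun_pi]
    simp_rw [charFun_gaussianReal]
    rw [← Complex.exp_sum]
    push_cast
    congr 1
    rw [Finset.sum_div, ← Finset.sum_neg_distrib]
    refine Finset.sum_congr rfl fun i _ => ?_
    simp
  have hconv : Tendsto μ atTop (𝓝 ν) := by
    rw [ProbabilityMeasure.tendsto_iff_tendsto_charFun]
    intro τ
    rw [hν, hμ]
    change Tendsto (fun j => charFun (lawE (Ds j).H (Ds j).vec) τ) atTop (𝓝 (charFun ν0 τ))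
    rw [hcharν τ]
    simp only [lawE_char]
    by_cases hτ : 0 < ∑ i, τ i ^ 2
    · rw [Metric.tendsto_atTop]
      intro δ hδ
      obtain ⟨N, hN⟩ := Blk.char (ι := ι) (fun k => τ k) hτ (half_pos hδ)
      refine ⟨N, fun j hj => ?_⟩
      rw [dist_eq_norm]
      exact lt_of_le_of_lt (hN (Ds j) ((hDs j).anti hj)) (by linarith)
    · have h0 : ∀ k, τ k = 0 := by
        intro k
        have h1 : ∑ i, τ i ^ 2 = 0 := le_antisymm (not_lt.1 hτ) (Finset.sum_nonneg fun i _ => sq_nonneg _)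
        rw [Finset.sum_eq_zero_iff_of_nonneg (fun i _ => sq_nonneg _)] at h1
        exact pow_eq_zero_iff (two_ne_zero) |>.1 (h1 k (Finset.mem_univ k))
      have e : ∀ j, EBc (Ds j).H (fun c => Complex.exp (((∑ k, τ k * (Ds j).vec c k : ℝ) : ℂ) * Complex.I)) = 1 := by
        intro j
        simp only [h0, zero_mul, Finset.sum_const_zero, Complex.ofReal_zero, Complex.exp_zero]
        exact EBc_one _
      simp only [e]
      have e2 : ((Real.exp (-((∑ i, τ i ^ 2) / 2)) : ℝ) : ℂ) = 1 := by simp [h0]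
      rw [e2]
      exact tendsto_const_nhds
  rw [ProbabilityMeasure.tendsto_iff_forall_integral_tendsto] at hconv
  have hgc : Continuous (fun z : EuclideanSpace ℝ (Fin n) => g (WithLp.ofLp z)) :=
    hg.comp (PiLp.continuous_ofLp 2 _)
  have h := hconv (BoundedContinuousFunction.ofNormedAddCommGroup (fun z : EuclideanSpace ℝ (Fin n) => g (WithLp.ofLp z)) hgc Mb
    (fun z => by rw [Real.norm_eq_abs]; exact hMb _))
  simp only [BoundedContinuousFunction.coe_ofNormedAddCommGroup, hμ, hν] at h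
  change Tendsto (fun j => ∫ z, g (WithLp.ofLp z) ∂(lawE (Ds j).H (Ds j).vec)) atTop (𝓝 (∫ z, g (WithLp.ofLp z) ∂ν0)) at h
  simp only [lawE_real] at h
  rw [hν0, integral_map hm0 hgc.aestronglyMeasurable] at h
  rw [Metric.tendsto_atTop] at h
  obtain ⟨N, hN⟩ := h ε hε
  have h6 := hN N le_rfl
  rw [Real.dist_eq] at h6
  have h7 := hbad N
  linarith

/-- The Gaussian measure does not miss an interval. -/
theorem gauss_lt {φ : ℝ → ℝ} (hc : Continuous φ) (h0 : ∀ x, 0 ≤ φ x) (h1 : ∀ x, φ x ≤ 1) {b : ℝ}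
    (hz : ∀ x, b < x → x < b + 1 → φ x = 0) : 0 ≤ ∫ x, φ x ∂(gaussianReal 0 1) ∧ ∫ x, φ x ∂(gaussianReal 0 1) < 1 := by
  refine ⟨integral_nonneg h0, ?_⟩
  have hi : Integrable φ (gaussianReal 0 1) := by
    refine (integrable_const (1 : ℝ)).mono' hc.aestronglyMeasurable (Filter.Eventually.of_forall fun x => ?_)
    rw [Real.norm_eq_abs, abs_of_nonneg (h0 x)]
    exact h1 x
  have hle : ∫ x, φ x ∂(gaussianReal 0 1) ≤ 1 := by
    have := integral_mono hi (integrable_const (1 : ℝ)) h1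
    simpa using this
  refine lt_of_le_of_ne hle fun heq => ?_
  have h2 : ∫ x, (1 - φ x) ∂(gaussianReal 0 1) = 0 := by
    rw [integral_sub (integrable_const _) hi, heq]
    simp
  have hi2 : Integrable (fun x => 1 - φ x) (gaussianReal 0 1) := (integrable_const (1 : ℝ)).sub hi
  have hn2 : (0 : ℝ → ℝ) ≤ fun x => 1 - φ x := fun x => by simpa using h1 x
  rw [integral_eq_zero_iff_of_nonneg hn2 hi2] at h2
  have h3 := (gaussianReal_absolutelyContinuous' 0 (one_ne_zero)).ae_le h2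
  have h4 : volume (Set.Ioo b (b + 1)) = 0 := by
    refine measure_mono_null ?_ h3
    intro x hx
    simp only [Set.mem_compl_iff, Set.mem_setOf_eq, Pi.zero_apply]
    rw [hz x hx.1 hx.2]
    norm_num
  rw [Real.volume_Ioo] at h4
  norm_num at h4

end Pool.Agent.V5helper57.Uni
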