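import Pool.Agent.V5helper57.Uni.Loc
import Pool.Agent.V5helper57.Win.Inst

/-!
# The sum of Kuo, Murty and Conrad
-/

set_option autoImplicit false

namespace Pool.Agent.V5helper57.Uni

open Finset Filter Topology Pool.Agent.Y722.HS Pool.Agent.X280.BP Pool.Agent.X280.UC Pool.Agent.X280.HG
open Pool.Agent.V5helper57.Win Pool.Agent.V5helper57.Gen Pool.Agent.V5helper57.Zet

variable {ι : Type} [Fintype ι] [DecidableEq ι]

/-- The eigenvalue of the Frobenius for the trace `t`. -/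
noncomputable def eig (p : ℕ) (t : ℝ) : ℂ := ⟨t / 2, √(4 * p - t ^ 2) / 2⟩

/-- The sum of `(α ^ k + β ^ k) log p` over the good primes `p` and the `k` with `p ^ k ≤ y`. -/
noncomputable def kmc (W : WeierstrassCurve ℤ) (y : ℕ) : ℝ :=
  open Classical in
  ∑ p ∈ (range (y + 1)).filter (Gd W), ∑ k ∈ Icc 1 (Nat.log p y), 2 * (eig p ((p : ℝ) + 1 - np W p) ^ k).re * Real.log p

theorem eig_sq {p : ℕ} {t : ℝ} (ht : t ^ 2 ≤ 4 * p) : ‖eig p t‖ = √p := by
  have h1 : ‖eig p t‖ ^ 2 = p := by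
    rw [Complex.sq_norm, Complex.normSq_apply]
    unfold eig
    simp only
    have h2 : √(4 * (p : ℝ) - t ^ 2) * √(4 * (p : ℝ) - t ^ 2) = 4 * p - t ^ 2 := Real.mul_self_sqrt (by linarith)
    nlinarith
  rw [← h1, Real.sqrt_sq (norm_nonneg _)]

theorem eig_le {p : ℕ} {t B : ℝ} (hB : 0 ≤ B) (h1 : (p : ℝ) ≤ B ^ 2) (h2 : t ^ 2 ≤ 4 * B ^ 2) : ‖eig p t‖ ≤ B := by
  have h3 : ‖eig p t‖ ^ 2 ≤ B ^ 2 := by
    rw [Complex.sq_norm, Complex.normSq_apply]
    unfold eig
    simp only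
    rcases le_total 0 (4 * (p : ℝ) - t ^ 2) with h | h
    · have h4 : √(4 * (p : ℝ) - t ^ 2) * √(4 * (p : ℝ) - t ^ 2) = 4 * p - t ^ 2 := Real.mul_self_sqrt h
      nlinarith
    · rw [Real.sqrt_eq_zero_of_nonpos h]
      nlinarith
  exact le_of_pow_le_pow_left₀ (by norm_num) hB h3

theorem geo {q : ℝ} (hq : 2 ≤ q) (K : ℕ) : ∑ k ∈ Icc 1 K, q ^ k ≤ 2 * q ^ K := by
  induction K with
  | zero => simp
  | succ n ih =>
    rw [Finset.sum_Icc_succ_top (by omega)]
    have h1 : 0 ≤ q ^ n := by positivity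
    rw [pow_succ] 
    nlinarith

theorem term_le (z : ℂ) (k p : ℕ) : |2 * (z ^ k).re * Real.log p| ≤ 2 * Real.log p * ‖z‖ ^ k := by
  have hl : 0 ≤ Real.log p := Real.log_natCast_nonneg p
  rw [abs_mul, abs_of_nonneg hl, abs_mul, abs_two]
  have h1 : |(z ^ k).re| ≤ ‖z‖ ^ k := by
    rw [← norm_pow]
    exact Complex.abs_re_le_norm _
  nlinarith

theorem kmc_near {W : (ι → ℤ) → WeierstrassCurve ℤ} {V : ∀ p : ℕ, (ι → ZMod p) → WeierstrassCurve (ZMod p)}
    (h : Red W V) {r C : ℝ} (D : Dat (trc V) (fun p c => (V p c).Δ ≠ 0) r C) (y : ℕ) (c : ι → ℤ) :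
    |kmc (W c) y - ts (trc V) (fun p c => (V p c).Δ ≠ 0) y c| ≤ 30 * y := by
  classical
  rcases Nat.eq_zero_or_pos y with hy0 | hy0
  · subst hy0
    have e1 : kmc (W c) 0 = 0 := by
      unfold kmc
      refine Finset.sum_eq_zero fun p _ => ?_
      rw [Nat.log_zero_right]
      simp
    have e2 : ts (trc V) (fun p c => (V p c).Δ ≠ 0) 0 c = 0 := by
      unfold ts
      simp
    rw [e1, e2]
    simp
  have hyR : (1 : ℝ) ≤ y := by exact_mod_cast hy0
  have htr : ∀ p : ℕ, (p : ℝ) + 1 - np (W c) p = trc V p (red p c) := by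
    intro p
    rw [np_map, h.map]
    unfold trc
    push_cast
    ring
  have hgood : ∀ p, 5 ≤ p → (Gd (W c) p ↔ (p.Prime ∧ (V p (red p c)).Δ ≠ 0)) := by
    intro p h5
    unfold Gd
    refine and_congr_right fun hp => ?_
    rw [not_iff_not, ← h.map, WeierstrassCurve.map_Δ]
    have hpi : Prime (p : ℤ) := Nat.prime_iff_prime_int.mp hp
    have h2 : ¬ (p : ℤ) ∣ 2 := by
      intro hd
      have := Int.le_of_dvd (by norm_num) hd
      omega
    constructor
    · intro hd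
      have hd2 := (hpi.dvd_or_dvd hd).resolve_left h2
      rw [eq_intCast]
      exact (ZMod.intCast_zmod_eq_zero_iff_dvd _ _).mpr (by exact_mod_cast hd2)
    · intro he
      rw [eq_intCast] at he
      exact Dvd.dvd.mul_left ((ZMod.intCast_zmod_eq_zero_iff_dvd _ _).mp he) _
  obtain ⟨z, hz⟩ : ∃ z : ℕ → ℂ, z = fun p => eig p ((p : ℝ) + 1 - np (W c) p) := ⟨_, rfl⟩
  obtain ⟨F, hF⟩ : ∃ F : Finset ℕ, F = (range (y + 1)).filter (Gd (W c)) := ⟨_, rfl⟩
  have hk : kmc (W c) y = ∑ p ∈ F, ∑ k ∈ Icc 1 (Nat.log p y), 2 * (z p ^ k).re * Real.log p := by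
    rw [hz, hF]
    rfl
  -- the terms with `k = 1`
  have hFm : ∀ p ∈ F, p ≤ y ∧ p.Prime ∧ Gd (W c) p := by
    intro p hp
    rw [hF, Finset.mem_filter, Finset.mem_range] at hp
    exact ⟨by omega, hp.2.1, hp.2⟩
  have hts : ts (trc V) (fun p c => (V p c).Δ ≠ 0) y c =
      ∑ p ∈ F.filter (fun p => 5 ≤ p), trc V p (red p c) * Real.log p := by
    unfold ts tg
    rw [Finset.sum_congr rfl (g := fun p => if (V p (red p c)).Δ ≠ 0 then trc V p (red p c) * Real.log p else 0)
      (fun p _ => by split_ifs <;> ring), ← Finset.sum_filter]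
    refine Finset.sum_congr ?_ fun p _ => rfl
    ext p
    rw [hF]
    simp only [Finset.mem_filter, Finset.mem_Ico, Finset.mem_range]
    constructor
    · rintro ⟨⟨⟨h1, h2⟩, h3⟩, h4⟩
      exact ⟨⟨h2, (hgood p h1).2 ⟨h3, h4⟩⟩, h1⟩
    · rintro ⟨⟨h2, h3⟩, h1⟩
      have := (hgood p h1).1 h3
      exact ⟨⟨⟨h1, h2⟩, this.1⟩, this.2⟩
  rw [hk, hts, ← Finset.sum_filter_add_sum_filter_not F (fun p => 5 ≤ p), add_sub_right_comm, ← Finset.sum_sub_distrib]
  -- the large primes
  have hbig : ∀ p ∈ F.filter (fun p => 5 ≤ p), |∑ k ∈ Icc 1 (Nat.log p y), 2 * (z p ^ k).re * Real.log p -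
      trc V p (red p c) * Real.log p| ≤ if p ^ 2 ≤ y then 4 * √y * Real.log p else 0 := by
    intro p hp
    obtain ⟨hp1, h5⟩ := Finset.mem_filter.1 hp
    obtain ⟨hpy, hpp, _⟩ := hFm p hp1
    obtain ⟨h0, h1, h2, h3, h4, h6⟩ := sqrt_facts hpp h5
    have hlog1 : 1 ≤ Nat.log p y := Nat.log_pos hpp.one_lt hpy
    have hl : 0 ≤ Real.log p := Real.log_natCast_nonneg p
    have ht : trc V p (red p c) ^ 2 ≤ 4 * p := by
      have ha := D.hasse p hpp h5 (red p c)
      have := sq_le_sq' (by have := (abs_le.mp ha).1; linarith) (abs_le.mp ha).2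
      calc trc V p (red p c) ^ 2 ≤ (2 * √p) ^ 2 := this
        _ = 4 * (√p * √p) := by ring
        _ = 4 * p := by rw [h1]
    have hzn : ‖z p‖ = √p := by
      rw [hz]
      simp only
      rw [htr]
      exact eig_sq ht
    have hz1 : 2 * (z p ^ 1).re * Real.log p = trc V p (red p c) * Real.log p := by
      rw [pow_one, hz]
      simp only
      rw [htr]
      unfold eig
      simp only
      ring
    have e1 : ∑ k ∈ Icc 1 (Nat.log p y), 2 * (z p ^ k).re * Real.log p - trc V p (red p c) * Real.log p =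
        ∑ k ∈ Icc 2 (Nat.log p y), 2 * (z p ^ k).re * Real.log p := by
      rw [← Finset.add_sum_Ioc_eq_sum_Icc hlog1, hz1, add_sub_cancel_left]
      rfl
    rw [e1]
    split_ifs with hpy2
    · refine (Finset.abs_sum_le_sum_abs _ _).trans ?_
      refine (Finset.sum_le_sum fun k _ => term_le (z p) k p).trans ?_
      rw [← Finset.mul_sum, hzn]
      have h7 : ∑ k ∈ Icc 2 (Nat.log p y), √(p : ℝ) ^ k ≤ ∑ k ∈ Icc 1 (Nat.log p y), √(p : ℝ) ^ k := by
        refine Finset.sum_le_sum_of_subset_of_nonneg (Finset.Icc_subset_Icc_left (by norm_num)) fun k _ _ => by positivity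
      have h8 := geo h6 (Nat.log p y)
      have h9 : √(p : ℝ) ^ Nat.log p y ≤ √y := by
        apply Real.le_sqrt_of_sq_le
        have e3 : (√(p : ℝ) ^ Nat.log p y) ^ 2 = ((p ^ Nat.log p y : ℕ) : ℝ) := by
          rw [← pow_mul, mul_comm, pow_mul, Real.sq_sqrt h4.le]
          push_cast
          rfl
        rw [e3]
        exact_mod_cast Nat.pow_log_le_self p hy0.ne'
      calc 2 * Real.log p * ∑ k ∈ Icc 2 (Nat.log p y), √(p : ℝ) ^ k ≤ 2 * Real.log p * (2 * √y) := by
            gcongr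
            linarith
        _ = 4 * √y * Real.log p := by ring
    · have hlt : Nat.log p y < 2 := by
        by_contra hcon
        push Not at hcon
        apply hpy2
        calc p ^ 2 ≤ p ^ Nat.log p y := Nat.pow_le_pow_right hpp.pos hcon
          _ ≤ y := Nat.pow_log_le_self p hy0.ne'
      rw [Finset.Icc_eq_empty (by omega), Finset.sum_empty, abs_zero]
  have hsum1 : |∑ p ∈ F.filter (fun p => 5 ≤ p), (∑ k ∈ Icc 1 (Nat.log p y), 2 * (z p ^ k).re * Real.log p -
      trc V p (red p c) * Real.log p)| ≤ 16 * y := by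
    refine (Finset.abs_sum_le_sum_abs _ _).trans ((Finset.sum_le_sum hbig).trans ?_)
    rw [← Finset.sum_filter, ← Finset.mul_sum]
    have h1 : ∑ p ∈ (F.filter (fun p => 5 ≤ p)).filter (fun p => p ^ 2 ≤ y), Real.log (p : ℝ) ≤
        ∑ p ∈ (Ico 5 (Nat.sqrt y + 1)).filter Nat.Prime, Real.log (p : ℝ) := by
      refine Finset.sum_le_sum_of_subset_of_nonneg ?_ fun p _ _ => Real.log_natCast_nonneg p
      intro p hp
      simp only [Finset.mem_filter, Finset.mem_Ico] at hp ⊢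
      have h2 : p ≤ Nat.sqrt y := by
        rw [Nat.le_sqrt]
        have := hp.2
        rwa [sq] at this
      exact ⟨⟨hp.1.2, by omega⟩, (hFm p hp.1.1).2.1⟩
    have h2 := h1.trans (theta_le (Nat.sqrt y))
    have h3 : ((Nat.sqrt y : ℕ) : ℝ) ≤ √y := by
      apply Real.le_sqrt_of_sq_le
      have := Nat.sqrt_le' y
      exact_mod_cast this
    have h4 : √(y : ℝ) * √(y : ℝ) = y := Real.mul_self_sqrt (by positivity)
    calc 4 * √(y : ℝ) * ∑ p ∈ (F.filter (fun p => 5 ≤ p)).filter (fun p => p ^ 2 ≤ y), Real.log (p : ℝ)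
        ≤ 4 * √(y : ℝ) * (2 * √y) := by
          gcongr
          linarith
      _ = 8 * (√y * √y) := by ring
      _ = 8 * y := by rw [h4]
      _ ≤ 16 * y := by linarith
  -- the small primes
  have hsum2 : |∑ p ∈ F.filter (fun p => ¬ 5 ≤ p), ∑ k ∈ Icc 1 (Nat.log p y), 2 * (z p ^ k).re * Real.log p| ≤ 12 * y := by
    have hsub : F.filter (fun p => ¬ 5 ≤ p) ⊆ {3} := by
      intro p hp
      rw [Finset.mem_filter] at hp
      obtain ⟨h1, h2, h3⟩ := hFm p hp.1
      rw [Finset.mem_singleton]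
      have h4 : p ≠ 2 := by
        rintro rfl
        apply h3.2
        exact Dvd.intro _ rfl
      have h5 := h2.two_le
      have h6 : p ≠ 4 := by rintro rfl; norm_num at h2
      have := hp.2
      omega
    have h3b : |∑ k ∈ Icc 1 (Nat.log 3 y), 2 * (z 3 ^ k).re * Real.log (3 : ℕ)| ≤ 12 * y := by
      have hz3 : ‖z 3‖ ≤ 3 := by
        rw [hz]
        apply eig_le (by norm_num)
        · norm_num
        · have h1 : (np (W c) 3 : ℝ) ≤ 10 := by
            have : np (W c) 3 ≤ 10 := by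
              unfold np
              have h2 : Nat.card {q : ZMod 3 × ZMod 3 // q.2 ^ 2 + ((W c).a₁ : ZMod 3) * q.1 * q.2 + ((W c).a₃ : ZMod 3) * q.2 =
                  q.1 ^ 3 + ((W c).a₂ : ZMod 3) * q.1 ^ 2 + ((W c).a₄ : ZMod 3) * q.1 + ((W c).a₆ : ZMod 3)} ≤
                  Nat.card (ZMod 3 × ZMod 3) := Finite.card_subtype_le _
              rw [Nat.card_prod, Nat.card_zmod] at h2
              omega
            exact_mod_cast this
          have h2 : (0 : ℝ) ≤ np (W c) 3 := by positivity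
          push_cast
          nlinarith
      refine (Finset.abs_sum_le_sum_abs _ _).trans ?_
      refine (Finset.sum_le_sum fun k _ => term_le (z 3) k 3).trans ?_
      rw [← Finset.mul_sum]
      have hl3 : Real.log (3 : ℕ) ≤ 3 := by
        have := Real.log_le_sub_one_of_pos (show (0 : ℝ) < (3 : ℕ) by norm_num)
        norm_num at this ⊢
        linarith
      have hl30 : 0 ≤ Real.log (3 : ℕ) := Real.log_natCast_nonneg 3
      have h1 : ∑ k ∈ Icc 1 (Nat.log 3 y), ‖z 3‖ ^ k ≤ ∑ k ∈ Icc 1 (Nat.log 3 y), (3 : ℝ) ^ k := by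
        gcongr
      have h2 := geo (q := 3) (by norm_num) (Nat.log 3 y)
      have h3 : (3 : ℝ) ^ Nat.log 3 y ≤ y := by exact_mod_cast Nat.pow_log_le_self 3 hy0.ne'
      have h4 : ∑ k ∈ Icc 1 (Nat.log 3 y), ‖z 3‖ ^ k ≤ 2 * y := by linarith
      have h5 : 0 ≤ ∑ k ∈ Icc 1 (Nat.log 3 y), ‖z 3‖ ^ k := Finset.sum_nonneg fun k _ => by positivity
      nlinarith
    rcases Finset.subset_singleton_iff.1 hsub with h1 | h1
    · rw [h1, Finset.sum_empty, abs_zero]
      positivity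
    · rw [h1, Finset.sum_singleton]
      exact h3b
  refine (abs_add_le _ _).trans ?_
  linarith

end Pool.Agent.V5helper57.Uni
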