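import Pool.Agent.V5helper57.Uni.Maxi

/-!
# The local data of the sums of the traces
-/

set_option autoImplicit false

namespace Pool.Agent.V5helper57.Uni

open Finset Filter Topology Pool.Agent.Y722.HS Pool.Agent.X280.BP Pool.Agent.X280.UC Pool.Agent.X280.HG
open Pool.Agent.V5helper57.Win Pool.Agent.V5helper57.Gen Pool.Agent.V5helper57.Zet

variable {ι : Type} [Fintype ι] [DecidableEq ι]
variable {a : ∀ p : ℕ, (ι → ZMod p) → ℝ} {G : ∀ p : ℕ, (ι → ZMod p) → Prop} {r C : ℝ}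

open Classical in
/-- The trace at the primes of good reduction. -/
noncomputable def tg (a : ∀ p : ℕ, (ι → ZMod p) → ℝ) (G : ∀ p : ℕ, (ι → ZMod p) → Prop) (p : ℕ) (c : ι → ZMod p) : ℝ :=
  if G p c then a p c else 0

/-- Its mean value. -/
noncomputable def tm (a : ∀ p : ℕ, (ι → ZMod p) → ℝ) (G : ∀ p : ℕ, (ι → ZMod p) → Prop) (p : ℕ) : ℝ :=
  if h : p ≠ 0 then
    haveI : NeZero p := ⟨h⟩
    EM p (tg a G p) else 0

/-- The centred and weighted local data. -/
noncomputable def tz (a : ∀ p : ℕ, (ι → ZMod p) → ℝ) (G : ∀ p : ℕ, (ι → ZMod p) → Prop) (p : ℕ) (c : ι → ZMod p) : ℝ :=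
  if 5 ≤ p then (tg a G p c - tm a G p) * Real.log p else 0

/-- The bound of the local data. -/
noncomputable def tb (p : ℕ) : ℝ := 4 * √p * Real.log p

theorem tb_nonneg (p : ℕ) : 0 ≤ tb p := by
  have : 0 ≤ Real.log p := Real.log_natCast_nonneg p
  unfold tb
  positivity

theorem tm_eq (p : ℕ) [NeZero p] : tm a G p = EM p (tg a G p) := by
  unfold tm
  rw [dif_pos (NeZero.ne p)]

theorem tg_le (D : Dat a G r C) {p : ℕ} (hp : p.Prime) (h5 : 5 ≤ p) (c : ι → ZMod p) : |tg a G p c| ≤ 2 * √p := by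
  unfold tg
  split_ifs
  · exact D.hasse p hp h5 c
  · rw [abs_zero]; positivity

theorem tm_le (D : Dat a G r C) {p : ℕ} (hp : p.Prime) (h5 : 5 ≤ p) : |tm a G p| ≤ 2 * √p := by
  have : NeZero p := ⟨hp.ne_zero⟩
  rw [tm_eq]
  refine (EM_abs_le p (tg a G p) (fun _ => 2 * √p) fun c => tg_le D hp h5 c).trans ?_
  rw [EM_const']

theorem tz_cen (D : Dat a G r C) : Cen (tz a G) tb where
  b0 := tb_nonneg
  bd := by
    intro p hp c
    unfold tz
    split_ifs with h5
    · have hl : 0 ≤ Real.log p := Real.log_natCast_nonneg p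
      rw [abs_mul, abs_of_nonneg hl]
      unfold tb
      have h1 : |tg a G p c - tm a G p| ≤ 4 * √p := by
        calc |tg a G p c - tm a G p| ≤ |tg a G p c| + |tm a G p| := abs_sub _ _
          _ ≤ 2 * √p + 2 * √p := add_le_add (tg_le D hp h5 c) (tm_le D hp h5)
          _ = 4 * √p := by ring
      exact mul_le_mul_of_nonneg_right h1 hl
    · rw [abs_zero]; exact tb_nonneg p
  mean := by
    intro p hp _
    unfold tz
    split_ifs with h5
    · have e : (fun c => (tg a G p c - tm a G p) * Real.log p) =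
          fun c => Real.log p * (tg a G p c - tm a G p) := by
        funext c
        ring
      rw [e, EM_mul', EM_sub', EM_const', tm_eq, sub_self, mul_zero]
    · exact EM_const' p 0

/-- The mean value is bounded. -/
theorem tm_val (D : Dat a G r C) {p : ℕ} (hp : p.Prime) (h5 : 5 ≤ p) : |tm a G p| ≤ |r| + 2 * C := by
  classical
  have : NeZero p := ⟨hp.ne_zero⟩
  obtain ⟨h0, h1, h2, h3, h4, h6⟩ := sqrt_facts hp h5
  have hC := D.C1
  rw [tm_eq]
  have e : tg a G p = fun c => a p c - (if G p c then 0 else a p c) := by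
    funext c
    unfold tg
    split_ifs <;> ring
  rw [e, EM_sub']
  have k1 := D.mean p hp h5
  have k3 := D.few p hp h5
  have k4 : |EM p (fun c => if G p c then 0 else a p c)| ≤ C / √p := by
    refine (EM_abs_le p _ (fun c => if G p c then (0 : ℝ) else 1) fun c => ?_).trans k3
    split_ifs with hG
    · simp
    · exact D.bad p hp h5 c hG
  have k5 : C / √p ≤ C := by
    rw [div_le_iff₀ h0]
    nlinarith
  have k6 : |EM p (a p)| ≤ |r| + C := by
    have : EM p (a p) = (EM p (a p) + r) - r := by ring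
    rw [this]
    refine (abs_sub _ _).trans ?_
    linarith
  refine (abs_sub _ _).trans ?_
  linarith

/-- The variance is at least half of the maximal one, for large primes. -/
theorem tz_var (D : Dat a G r C) : ∃ P0 : ℕ, 5 ≤ P0 ∧ ∀ p : ℕ, p.Prime → P0 ≤ p →
    (p : ℝ) * Real.log p ^ 2 / 2 ≤ vv (tz a G) p := by
  classical
  have hC := D.C1
  obtain ⟨Q, hQ⟩ : ∃ Q : ℝ, Q = 2 * C + (|r| + 2 * C) ^ 2 := ⟨_, rfl⟩
  have hQ0 : 0 < Q := by rw [hQ]; positivity
  obtain ⟨P0, hP0⟩ := exists_nat_ge (4 * Q ^ 2 + 5)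
  refine ⟨P0, ?_, fun p hp hpP => ?_⟩
  · have : (5 : ℝ) ≤ P0 := by nlinarith [sq_nonneg Q]
    exact_mod_cast this
  have : NeZero p := ⟨hp.ne_zero⟩
  have hpR : 4 * Q ^ 2 + 5 ≤ (p : ℝ) := hP0.trans (by exact_mod_cast hpP)
  have h5 : 5 ≤ p := by
    have : (5 : ℝ) ≤ p := by nlinarith [sq_nonneg Q]
    exact_mod_cast this
  obtain ⟨h0, h1, h2, h3, h4, h6⟩ := sqrt_facts hp h5
  obtain ⟨s, hs⟩ : ∃ s : ℝ, s = √(p : ℝ) := ⟨_, rfl⟩
  rw [← hs] at h0 h1 h2 h3 h6
  rw [vv_eq]
  have e1 : (fun c => tz a G p c ^ 2) = fun c => Real.log p ^ 2 * (((a p c ^ 2 - (if G p c then 0 else a p c ^ 2)) -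
      (2 * tm a G p) * tg a G p c) + tm a G p ^ 2) := by
    funext c
    unfold tz tg
    rw [if_pos h5]
    split_ifs <;> ring
  rw [e1, EM_mul', EM_add', EM_sub', EM_sub', EM_mul', EM_const']
  rw [← tm_eq (a := a) (G := G) p]
  have k2 := D.sq p hp h5
  have k3 := D.few p hp h5
  rw [← hs] at k2 k3
  have k4 : |EM p (fun c => if G p c then 0 else a p c ^ 2)| ≤ C / s := by
    refine (EM_abs_le p _ (fun c => if G p c then (0 : ℝ) else 1) fun c => ?_).trans k3
    split_ifs with hG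
    · simp
    · have hb := D.bad p hp h5 c hG
      rw [abs_of_nonneg (sq_nonneg _)]
      have := sq_le_sq' (by have := (abs_le.mp hb).1; linarith) (abs_le.mp hb).2
      linarith
  have k5 : C / s ≤ C * s := by
    rw [div_le_iff₀ h0]
    nlinarith
  have k6 := tm_val D hp h5
  have k7 : tm a G p ^ 2 ≤ (|r| + 2 * C) ^ 2 := by
    rw [← sq_abs (tm a G p)]
    exact pow_le_pow_left₀ (abs_nonneg _) k6 2
  have k8 : (|r| + 2 * C) ^ 2 ≤ (|r| + 2 * C) ^ 2 * s := by nlinarith [sq_nonneg (|r| + 2 * C)]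
  have hsQ : 2 * Q ≤ s := by
    rw [hs]
    apply Real.le_sqrt_of_sq_le
    nlinarith
  have k9 : Q * s ≤ p / 2 := by nlinarith
  have k10 := (abs_le.mp k2).1
  have k11 := (abs_le.mp k4).2
  obtain ⟨m2, hm2⟩ : ∃ m : ℝ, m = EM p (fun c => a p c ^ 2) := ⟨_, rfl⟩
  obtain ⟨m3, hm3⟩ : ∃ m : ℝ, m = EM p (fun c => if G p c then 0 else a p c ^ 2) := ⟨_, rfl⟩
  rw [← hm2] at k10 ⊢
  rw [← hm3] at k11 ⊢
  have k12 : (p : ℝ) / 2 ≤ m2 - m3 - 2 * tm a G p * tm a G p + tm a G p ^ 2 := by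
    have e : Q * s = 2 * (C * s) + (|r| + 2 * C) ^ 2 * s := by rw [hQ]; ring
    nlinarith
  have hl : 0 ≤ Real.log p ^ 2 := by positivity
  nlinarith

theorem tb_BB (v : ℕ) : BB tb 0 (v + 1) ≤ 32 * (v : ℝ) ^ 2 * Real.log v := by
  unfold BB
  have h1 : ∀ p ∈ (Ico 0 (v + 1)).filter Nat.Prime, tb p ^ 2 ≤ 16 * (v * Real.log v) * Real.log p := by
    intro p hp
    rw [Finset.mem_filter, Finset.mem_Ico] at hp
    have hp0 : (0 : ℝ) < p := by exact_mod_cast hp.2.pos
    have hpv : (p : ℝ) ≤ v := by exact_mod_cast (by omega : p ≤ v)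
    have hl : 0 ≤ Real.log p := Real.log_natCast_nonneg p
    have hlv : Real.log p ≤ Real.log v := Real.log_le_log hp0 hpv
    unfold tb
    have e : (4 * √(p : ℝ) * Real.log p) ^ 2 = 16 * (p * Real.log p) * Real.log p := by
      rw [mul_pow, mul_pow, Real.sq_sqrt hp0.le]
      ring
    rw [e]
    gcongr
  refine (Finset.sum_le_sum h1).trans ?_
  rw [← Finset.mul_sum]
  have h2 : ∑ p ∈ (Ico 0 (v + 1)).filter Nat.Prime, Real.log (p : ℝ) = Chebyshev.theta v := by
    rw [Chebyshev.theta_eq_sum_Icc, Nat.floor_natCast]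
    congr 1
  rw [h2]
  have h3 := Chebyshev.theta_le_log4_mul_x (x := (v : ℝ)) (by positivity)
  have h4 : Real.log 4 ≤ 2 := by
    have e : (4 : ℝ) = 2 ^ 2 := by norm_num
    rw [e, Real.log_pow]
    have := Real.log_two_lt_d9
    push_cast
    linarith
  have h5 : 0 ≤ Real.log (v : ℝ) := Real.log_natCast_nonneg v
  have h6 : Chebyshev.theta v ≤ 2 * v := h3.trans (by gcongr)
  calc 16 * (v * Real.log v) * Chebyshev.theta v ≤ 16 * (v * Real.log v) * (2 * v) := by gcongr
    _ = 32 * (v : ℝ) ^ 2 * Real.log v := by ring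

/-- The sum of the traces over the good primes from `5` to `y`. -/
noncomputable def ts (a : ∀ p : ℕ, (ι → ZMod p) → ℝ) (G : ∀ p : ℕ, (ι → ZMod p) → Prop) (y : ℕ) (c : ι → ℤ) : ℝ :=
  ∑ p ∈ (Ico 5 (y + 1)).filter Nat.Prime, tg a G p (red p c) * Real.log p

theorem theta_le (y : ℕ) : ∑ p ∈ (Ico 5 (y + 1)).filter Nat.Prime, Real.log (p : ℝ) ≤ 2 * y := by
  have h2 : ∑ p ∈ (Ico 5 (y + 1)).filter Nat.Prime, Real.log (p : ℝ) ≤ Chebyshev.theta y := by
    rw [Chebyshev.theta_eq_sum_Icc, Nat.floor_natCast]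
    refine Finset.sum_le_sum_of_subset_of_nonneg ?_ fun p _ _ => Real.log_natCast_nonneg p
    intro p hp
    simp only [Finset.mem_filter, Finset.mem_Ico, Finset.mem_Icc] at hp ⊢
    exact ⟨⟨by omega, by omega⟩, hp.2⟩
  have h3 := Chebyshev.theta_le_log4_mul_x (x := (y : ℝ)) (by positivity)
  have h4 : Real.log 4 ≤ 2 := by
    have e : (4 : ℝ) = 2 ^ 2 := by norm_num
    rw [e, Real.log_pow]
    have := Real.log_two_lt_d9
    push_cast
    linarith
  exact h2.trans (h3.trans (by gcongr))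

theorem ts_near (D : Dat a G r C) (y : ℕ) (c : ι → ℤ) : |ts a G y c - SS (tz a G) 0 (y + 1) c| ≤ 2 * (|r| + 2 * C) * y := by
  classical
  have hC := D.C1
  have e1 : SS (tz a G) 0 (y + 1) c = ∑ p ∈ (Ico 5 (y + 1)).filter Nat.Prime, tz a G p (red p c) := by
    unfold SS
    symm
    refine Finset.sum_subset ?_ fun p hp hpn => ?_
    · intro p hp
      simp only [Finset.mem_filter, Finset.mem_Ico] at hp ⊢
      exact ⟨⟨by omega, by omega⟩, hp.2⟩
    · have : ¬ 5 ≤ p := by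
        intro h5
        apply hpn
        simp only [Finset.mem_filter, Finset.mem_Ico] at hp ⊢
        exact ⟨⟨h5, hp.1.2⟩, hp.2⟩
      unfold tz
      rw [if_neg this]
  rw [e1]
  unfold ts
  rw [← Finset.sum_sub_distrib]
  refine (Finset.abs_sum_le_sum_abs _ _).trans ?_
  have h1 : ∀ p ∈ (Ico 5 (y + 1)).filter Nat.Prime,
      |tg a G p (red p c) * Real.log p - tz a G p (red p c)| ≤ (|r| + 2 * C) * Real.log p := by
    intro p hp
    rw [Finset.mem_filter, Finset.mem_Ico] at hp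
    unfold tz
    rw [if_pos hp.1.1]
    have e : tg a G p (red p c) * Real.log p - (tg a G p (red p c) - tm a G p) * Real.log p = tm a G p * Real.log p := by ring
    have hl : 0 ≤ Real.log p := Real.log_natCast_nonneg p
    rw [e, abs_mul, abs_of_nonneg hl]
    exact mul_le_mul_of_nonneg_right (tm_val D hp.2 hp.1.1) hl
  refine (Finset.sum_le_sum h1).trans ?_
  rw [← Finset.mul_sum]
  have h2 := theta_le y
  have : 0 ≤ |r| + 2 * C := by positivity
  nlinarith

end Pool.Agent.V5helper57.Uni
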