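import Pool.Agent.V5helper57.Zet.Maxi

/-!
# Maximal inequalities for the even moments of any order
-/

set_option autoImplicit false

namespace Pool.Agent.V5helper57.Uni

open Finset Filter Topology Pool.Agent.Y722.HS Pool.Agent.X280.BP Pool.Agent.X280.UC Pool.Agent.X280.HG
open Pool.Agent.V5helper57.Win Pool.Agent.V5helper57.Gen Pool.Agent.V5helper57.Zet

variable {ι : Type} [Fintype ι] [DecidableEq ι]

/-- The constant in `pow_ineq`. -/
noncomputable def ck (k : ℕ) : ℝ := (1 + 6 * ((k : ℝ) + 1)) ^ (2 * k)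

theorem ck_nonneg (k : ℕ) : 0 ≤ ck k := by unfold ck; positivity

theorem even_abs (k : ℕ) (u : ℝ) : u ^ (2 * k) = |u| ^ (2 * k) := by
  rw [pow_mul, pow_mul, sq_abs]

theorem exp_third : Real.exp (1 / 3) ≤ 3 / 2 := by
  by_contra h
  push Not at h
  have h1 : (3 / 2 : ℝ) ^ 3 < Real.exp (1 / 3) ^ 3 := pow_lt_pow_left₀ h (by norm_num) (by norm_num)
  rw [← Real.exp_nat_mul] at h1
  have h2 : Real.exp ((3 : ℕ) * (1 / 3)) < 2.7182818286 := by
    have := Real.exp_one_lt_d9
    norm_num at this ⊢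
    exact this
  norm_num at h1 h2
  linarith

theorem pow_ineq (k : ℕ) (u v : ℝ) : (u + v) ^ (2 * k) ≤ 3 / 2 * v ^ (2 * k) + ck k * u ^ (2 * k) := by
  have hk : (0 : ℝ) < 6 * ((k : ℝ) + 1) := by positivity
  rw [even_abs k (u + v), even_abs k u, even_abs k v]
  have hE : |u + v| ^ (2 * k) ≤ (|u| + |v|) ^ (2 * k) := pow_le_pow_left₀ (abs_nonneg _) (abs_add_le u v) _
  refine hE.trans ?_
  have hu := abs_nonneg u
  have hv := abs_nonneg v
  rcases le_total (6 * ((k : ℝ) + 1) * |u|) |v| with h | h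
  · have h1 : |u| + |v| ≤ (1 + 1 / (6 * ((k : ℝ) + 1))) * |v| := by
      have : |u| ≤ 1 / (6 * ((k : ℝ) + 1)) * |v| := by
        rw [one_div_mul_eq_div, le_div_iff₀ hk]
        linarith
      linarith
    have h2 : (1 + 1 / (6 * ((k : ℝ) + 1))) ^ (2 * k) ≤ 3 / 2 := by
      refine le_trans ?_ exp_third
      have h3 : 1 + 1 / (6 * ((k : ℝ) + 1)) ≤ Real.exp (1 / (6 * ((k : ℝ) + 1))) := by
        have := Real.add_one_le_exp (1 / (6 * ((k : ℝ) + 1)))
        linarith
      refine (pow_le_pow_left₀ (by positivity) h3 _).trans ?_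
      rw [← Real.exp_nat_mul, Real.exp_le_exp]
      push_cast
      rw [mul_one_div, div_le_div_iff₀ hk (by norm_num)]
      nlinarith
    have h4 : (|u| + |v|) ^ (2 * k) ≤ 3 / 2 * |v| ^ (2 * k) := by
      refine (pow_le_pow_left₀ (by positivity) h1 _).trans ?_
      rw [mul_pow]
      exact mul_le_mul_of_nonneg_right h2 (by positivity)
    have := mul_nonneg (ck_nonneg k) (pow_nonneg hu (2 * k))
    linarith
  · have h1 : |u| + |v| ≤ (1 + 6 * ((k : ℝ) + 1)) * |u| := by linarith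
    have h4 : (|u| + |v|) ^ (2 * k) ≤ ck k * |u| ^ (2 * k) := by
      refine (pow_le_pow_left₀ (by positivity) h1 _).trans ?_
      rw [mul_pow]
      exact le_rfl
    have := pow_nonneg hv (2 * k)
    linarith

/-- **The maximal inequality.** -/
theorem chain2 (k : ℕ) (hk : 2 ≤ k) (H : ℕ) (X : ℕ → (ι → ℤ) → ℝ) (w : ℕ → ℝ) (hw : ∀ i, 0 ≤ w i) (A : ℝ) (hA : 0 ≤ A)
    (b0 : ℕ) (h4 : ∀ a b, a ≤ b → b ≤ b0 → EB H (fun c => (∑ i ∈ Ico a b, X i c) ^ (2 * k)) ≤
      A * (∑ i ∈ Ico a b, w i) ^ k) :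
    ∀ n a b, a ≤ b → b ≤ b0 → b - a ≤ n → ∃ M : (ι → ℤ) → ℝ,
      EB H M ≤ 4 * ck k * A * (∑ i ∈ Ico a b, w i) ^ k ∧
      ∀ c t, a ≤ t → t ≤ b → (∑ i ∈ Ico a t, X i c) ^ (2 * k) ≤ M c := by
  have hck := ck_nonneg k
  intro n
  induction n with
  | zero =>
    intro a b hab _ hn
    have he : a = b := by omega
    subst he
    refine ⟨fun _ => 0, ?_, ?_⟩
    · have : EB H (fun _ : ι → ℤ => (0 : ℝ)) = 0 := by simp [EB]
      rw [this, Finset.Ico_self, Finset.sum_empty]
      positivity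
    · intro c t h1 h2
      have : t = a := by omega
      subst this
      simp only [Finset.Ico_self, Finset.sum_empty]
      rw [zero_pow (by omega)]
  | succ n ih =>
    intro a b hab hb hn
    rcases Nat.eq_or_lt_of_le hab with he | hlt
    · subst he
      obtain ⟨M, h1, h2⟩ := ih a a le_rfl hb (by omega)
      exact ⟨M, h1, h2⟩
    · obtain ⟨h, h1, h2, h3, h5⟩ := exists_split w hw a b hlt
      obtain ⟨ML, hL1, hL2⟩ := ih a h h1 (by omega) (by omega)
      obtain ⟨MR, hR1, hR2⟩ := ih (h + 1) b (by omega) hb (by omega)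
      have hL0 : ∀ c, 0 ≤ ML c := fun c => by
        have := hL2 c a le_rfl h1
        simp only [Finset.Ico_self, Finset.sum_empty] at this
        rwa [zero_pow (by omega)] at this
      have hR0 : ∀ c, 0 ≤ MR c := fun c => by
        have := hR2 c (h + 1) le_rfl (by omega)
        simp only [Finset.Ico_self, Finset.sum_empty] at this
        rwa [zero_pow (by omega)] at this
      obtain ⟨W, hW⟩ : ∃ W, W = ∑ i ∈ Ico a b, w i := ⟨_, rfl⟩
      rw [← hW] at h3 h5 ⊢
      have hW0 : 0 ≤ W := by rw [hW]; exact Finset.sum_nonneg fun i _ => hw i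
      have heven : Even (2 * k) := even_two_mul k
      refine ⟨fun c => 3 / 2 * (ML c + MR c) + ck k * (∑ i ∈ Ico a (h + 1), X i c) ^ (2 * k), ?_, ?_⟩
      · have e : EB H (fun c => 3 / 2 * (ML c + MR c) + ck k * (∑ i ∈ Ico a (h + 1), X i c) ^ (2 * k)) =
            3 / 2 * (EB H ML + EB H MR) +
              ck k * EB H (fun c => (∑ i ∈ Ico a (h + 1), X i c) ^ (2 * k)) := by
          unfold EB
          rw [Finset.sum_add_distrib, ← Finset.mul_sum, ← Finset.mul_sum, Finset.sum_add_distrib]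
          ring
        rw [e]
        have k1 := h4 a (h + 1) (by omega) (by omega)
        have k2 : (∑ i ∈ Ico a (h + 1), w i) ^ k ≤ W ^ k := by
          refine pow_le_pow_left₀ (Finset.sum_nonneg fun i _ => hw i) ?_ k
          rw [hW]
          exact Finset.sum_le_sum_of_subset_of_nonneg (Finset.Ico_subset_Ico_right (by omega))
            fun i _ _ => hw i
        have hk4 : (W / 2) ^ k ≤ W ^ k / 4 := by
          rw [div_pow]
          have : (4 : ℝ) ≤ 2 ^ k := by
            calc (4 : ℝ) = 2 ^ 2 := by norm_num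
              _ ≤ 2 ^ k := pow_le_pow_right₀ (by norm_num) hk
          gcongr
        have k3 : (∑ i ∈ Ico a h, w i) ^ k ≤ W ^ k / 4 :=
          (pow_le_pow_left₀ (Finset.sum_nonneg fun i _ => hw i) (by linarith) k).trans hk4
        have k4 : (∑ i ∈ Ico (h + 1) b, w i) ^ k ≤ W ^ k / 4 :=
          (pow_le_pow_left₀ (Finset.sum_nonneg fun i _ => hw i) (by linarith) k).trans hk4
        have k5 := mul_le_mul_of_nonneg_left k2 hA
        have k6 := mul_le_mul_of_nonneg_left k3 (show 0 ≤ 4 * ck k * A by positivity)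
        have k7 := mul_le_mul_of_nonneg_left k4 (show 0 ≤ 4 * ck k * A by positivity)
        have k8 := mul_le_mul_of_nonneg_left (k1.trans k5) hck
        linarith
      · intro c t ht1 ht2
        have hS0 : 0 ≤ ck k * (∑ i ∈ Ico a (h + 1), X i c) ^ (2 * k) := mul_nonneg hck (heven.pow_nonneg _)
        rcases Nat.lt_or_ge h t with hl | hl
        · have e : ∑ i ∈ Ico a t, X i c = ∑ i ∈ Ico a (h + 1), X i c + ∑ i ∈ Ico (h + 1) t, X i c :=
            (Finset.sum_Ico_consecutive (fun i => X i c) (by omega) (by omega)).symm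
          rw [e]
          refine (pow_ineq k _ _).trans ?_
          have := hR2 c t (by omega) ht2
          have := hL0 c
          linarith
        · have := hL2 c t ht1 hl
          have := hR0 c
          have := hL0 c
          linarith

variable {Z : ∀ p : ℕ, (ι → ZMod p) → ℝ} {b : ℕ → ℝ}

/-- **The even moments.** -/
theorem even (h : Cen Z b) {k x H : ℕ} (hk : 1 ≤ k) (hx1 : 1 ≤ x) (hH : 2 ^ Fintype.card ι * x ^ (3 * k) ≤ 2 * H + 1)
    {u v : ℕ} (hv : v ≤ x) :
    EB H (fun c => SS Z u v c ^ (2 * k)) ≤ (6 * (2 * k).factorial + 1) * BB b u v ^ k := by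
  classical
  obtain ⟨I, hI⟩ : ∃ I : Finset ℕ, I = (Ico u v).filter Nat.Prime := ⟨_, rfl⟩
  have hmem : ∀ p ∈ I, p.Prime ∧ u ≤ p ∧ p < v := by
    intro p hp
    rw [hI, Finset.mem_filter, Finset.mem_Ico] at hp
    exact ⟨hp.2, hp.1.1, hp.1.2⟩
  obtain ⟨W, hW⟩ : ∃ W : ℝ, W = ∑ p ∈ I, b p ^ 2 := ⟨_, rfl⟩
  have hBW : BB b u v = W := by rw [hW, hI]; rfl
  have hW0 : 0 ≤ W := by rw [← hBW]; exact BB_nonneg _ _ _
  rw [hBW]
  have hSS : ∀ c, SS Z u v c = ∑ p ∈ I, Z p (red p c) := fun c => by rw [hI]; rfl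
  rcases hW0.eq_or_lt with hW1 | hW1
  · have hb : ∀ p ∈ I, b p = 0 := by
      intro p hp
      have h1 : b p ^ 2 ≤ 0 := by
        rw [hW1, hW]
        exact Finset.single_le_sum (f := fun p => b p ^ 2) (fun q _ => by positivity) hp
      have h2 : 0 ≤ b p ^ 2 := by positivity
      exact pow_eq_zero_iff (two_ne_zero) |>.1 (le_antisymm h1 h2)
    have h0 : ∀ c, SS Z u v c = 0 := by
      intro c
      rw [hSS]
      refine Finset.sum_eq_zero fun p hp => ?_
      have h1 := h.bd p (hmem p hp).1 (red p c)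
      rw [hb p hp] at h1
      exact abs_eq_zero.1 (le_antisymm h1 (abs_nonneg _))
    have h2 : EB H (fun c => SS Z u v c ^ (2 * k)) = 0 := by
      simp only [h0]
      rw [zero_pow (by omega)]
      simp [EB]
    rw [h2]
    positivity
  · have hx4 : x ^ (2 * k) ≤ 2 * H + 1 := by
      calc x ^ (2 * k) ≤ x ^ (3 * k) := Nat.pow_le_pow_right hx1 (by omega)
        _ ≤ 2 ^ Fintype.card ι * x ^ (3 * k) := Nat.le_mul_of_pos_left _ (by positivity)
        _ ≤ _ := hH
    have h1 := mom_even I x (fun p hp => ⟨(hmem p hp).1, by have := (hmem p hp).2.2; omega⟩) Z b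
      (fun p hp => h.bd p (hmem p hp).1) (fun p hp => h.mean p (hmem p hp).1) W hW.symm.le (Real.sqrt (1 / W)) (by positivity)
      k H hx4
    have hs1 : Real.sqrt (1 / W) ^ 2 = 1 / W := Real.sq_sqrt (by positivity)
    have hs2 : Real.sqrt (1 / W) ^ (2 * k) = (1 / W) ^ k := by rw [pow_mul, hs1]
    rw [hs2, hs1, one_div_mul_cancel hW1.ne'] at h1
    have hcard : (I.card : ℝ) ≤ x := by
      have hc : I.card ≤ x := by
        calc I.card ≤ (Ico u v).card := by rw [hI]; exact Finset.card_filter_le _ _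
          _ = v - u := Nat.card_Ico u v
          _ ≤ x := by omega
      exact_mod_cast hc
    have h2 : (∑ p ∈ I, b p) ^ 2 ≤ x * W := by
      refine (sq_sum_le_card_mul_sum_sq (s := I) (f := b)).trans ?_
      rw [← hW]
      exact mul_le_mul_of_nonneg_right hcard hW0
    have h3 : (∑ p ∈ I, b p) ^ (2 * k) ≤ (x * W) ^ k := by
      rw [pow_mul]
      exact pow_le_pow_left₀ (by positivity) h2 k
    have hxR2 : (2 : ℝ) ^ Fintype.card ι * (x : ℝ) ^ (3 * k) ≤ 2 * H + 1 := by exact_mod_cast hH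
    have h5 : 2 ^ Fintype.card ι * ((x : ℝ) ^ (2 * k) / (2 * H + 1)) * (∑ p ∈ I, b p) ^ (2 * k) ≤ W ^ k := by
      calc 2 ^ Fintype.card ι * ((x : ℝ) ^ (2 * k) / (2 * H + 1)) * (∑ p ∈ I, b p) ^ (2 * k)
          ≤ 2 ^ Fintype.card ι * ((x : ℝ) ^ (2 * k) / (2 * H + 1)) * (x * W) ^ k := by gcongr
        _ = W ^ k * ((2 ^ Fintype.card ι * (x : ℝ) ^ (3 * k)) / (2 * H + 1)) := by
            rw [mul_pow, show 3 * k = 2 * k + k by ring, pow_add]
            ring
        _ ≤ W ^ k * 1 := by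
            gcongr
            rw [div_le_one (by positivity)]
            exact hxR2
        _ = W ^ k := mul_one _
    have h6 : 2 * ((2 * k).factorial : ℝ) / (1 / W) ^ k * Real.exp 1 ≤ 6 * (2 * k).factorial * W ^ k := by
      have e1 : 2 * ((2 * k).factorial : ℝ) / (1 / W) ^ k = 2 * (2 * k).factorial * W ^ k := by
        rw [div_pow, one_pow]
        field_simp
      rw [e1]
      have h7 : Real.exp 1 ≤ 3 := by
        have := Real.exp_one_lt_d9
        linarith
      have h8 : (0 : ℝ) ≤ 2 * (2 * k).factorial * W ^ k := by positivity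
      nlinarith
    simp only [hSS]
    linarith

/-- The constant in `maxi`. -/
noncomputable def mk (k : ℕ) : ℝ := 4 * ck k * (6 * (2 * k).factorial + 1)

theorem mk_nonneg (k : ℕ) : 0 ≤ mk k := by
  have := ck_nonneg k
  unfold mk
  positivity

/-- **The maximal inequality.** -/
theorem maxi (h : Cen Z b) {k x H : ℕ} (hk : 2 ≤ k) (hx1 : 1 ≤ x) (hH : 2 ^ Fintype.card ι * x ^ (3 * k) ≤ 2 * H + 1)
    {u v : ℕ} (huv : u ≤ v) (hv : v ≤ x) :
    ∃ M : (ι → ℤ) → ℝ, EB H M ≤ mk k * BB b u v ^ k ∧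
      ∀ c t, u ≤ t → t ≤ v → SS Z u t c ^ (2 * k) ≤ M c := by
  classical
  have e1 : ∀ a' b' c, ∑ i ∈ Ico a' b', (if i.Prime then Z i (red i c) else 0) = SS Z a' b' c := by
    intro a' b' c
    unfold SS
    rw [Finset.sum_filter]
  have e2 : ∀ a' b', ∑ i ∈ Ico a' b', (if i.Prime then b i ^ 2 else 0) = BB b a' b' := by
    intro a' b'
    unfold BB
    rw [Finset.sum_filter]
  obtain ⟨M, h1, h2⟩ := chain2 k hk H (fun i c => if i.Prime then Z i (red i c) else 0)
    (fun i => if i.Prime then b i ^ 2 else 0) (fun i => by positivity) (6 * (2 * k).factorial + 1)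
    (by positivity) v (fun a' b' _ hb' => by
      simp only [e1, e2]
      exact even h (by omega) hx1 hH (hb'.trans hv)) (v - u) u v huv le_rfl le_rfl
  rw [e2] at h1
  refine ⟨M, h1, fun c t hat ht => ?_⟩
  have := h2 c t hat ht
  rwa [e1] at this

/-- **The probability that the sums exceed a barrier.** -/
theorem barrier (h : Cen Z b) {k x H : ℕ} (hk : 2 ≤ k) (hx1 : 1 ≤ x) (hH : 2 ^ Fintype.card ι * x ^ (3 * k) ≤ 2 * H + 1)
    (s : Finset ℕ) (v : ℕ → ℕ) (hv : ∀ j ∈ s, v j ≤ x) (L V : ℕ → ℝ) (hL : ∀ j ∈ s, 0 < L j)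
    (hV : ∀ j ∈ s, BB b 0 (v j) ≤ V j) (P : (ι → ℤ) → Prop) [DecidablePred P]
    (hP : ∀ c, P c → ∃ j ∈ s, ∃ t ≤ v j, L j < |SS Z 0 t c|) :
    EB H (fun c => if P c then (1 : ℝ) else 0) ≤ mk k * ∑ j ∈ s, (V j / L j ^ 2) ^ k := by
  classical
  have hM : ∀ j : ℕ, ∃ M : (ι → ℤ) → ℝ, j ∈ s → EB H M ≤ mk k * BB b 0 (v j) ^ k ∧
      ∀ c t, 0 ≤ t → t ≤ v j → SS Z 0 t c ^ (2 * k) ≤ M c := by
    intro j
    by_cases hj : j ∈ s
    · obtain ⟨M, h1⟩ := maxi h hk hx1 hH (Nat.zero_le (v j)) (hv j hj)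
      exact ⟨M, fun _ => h1⟩
    · exact ⟨fun _ => 0, fun h => absurd h hj⟩
  choose M hM using hM
  have hM0 : ∀ j ∈ s, ∀ c, 0 ≤ M j c := by
    intro j hj c
    refine le_trans ?_ ((hM j hj).2 c 0 le_rfl (Nat.zero_le _))
    exact (even_two_mul k).pow_nonneg _
  have h1 : ∀ c, (if P c then (1 : ℝ) else 0) ≤ ∑ j ∈ s, M j c / L j ^ (2 * k) := by
    intro c
    have hnn : ∀ j ∈ s, 0 ≤ M j c / L j ^ (2 * k) := fun j hj =>
      div_nonneg (hM0 j hj c) ((even_two_mul k).pow_nonneg _)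
    split_ifs with hc
    · obtain ⟨j, hj, t, ht, hlt⟩ := hP c hc
      have h2 : 1 ≤ M j c / L j ^ (2 * k) := by
        rw [le_div_iff₀ (pow_pos (hL j hj) _), one_mul]
        refine le_trans ?_ ((hM j hj).2 c t (Nat.zero_le _) ht)
        rw [even_abs k (SS Z 0 t c)]
        exact pow_le_pow_left₀ (hL j hj).le hlt.le _
      exact h2.trans (Finset.single_le_sum (f := fun j => M j c / L j ^ (2 * k)) hnn hj)
    · exact Finset.sum_nonneg hnn
  refine (EB_mono' H _ _ h1).trans ?_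
  have e1 : EB H (fun c => ∑ j ∈ s, M j c / L j ^ (2 * k)) = ∑ j ∈ s, EB H (M j) / L j ^ (2 * k) := by
    unfold EB
    rw [Finset.sum_comm, Finset.sum_div]
    refine Finset.sum_congr rfl fun j _ => ?_
    rw [← Finset.sum_div]
    ring
  rw [e1, Finset.mul_sum]
  refine Finset.sum_le_sum fun j hj => ?_
  have h2 := (hM j hj).1
  have h3 : BB b 0 (v j) ^ k ≤ V j ^ k := pow_le_pow_left₀ (BB_nonneg _ _ _) (hV j hj) k
  have hL0 : 0 < L j ^ (2 * k) := pow_pos (hL j hj) _
  rw [div_le_iff₀ hL0]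
  refine h2.trans ((mul_le_mul_of_nonneg_left h3 (mk_nonneg k)).trans (le_of_eq ?_))
  rw [div_pow, ← pow_mul, mul_assoc, div_mul_cancel₀ _ hL0.ne']

end Pool.Agent.V5helper57.Uni
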