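import Pool.Agent.V5helper57.Uni.Var

/-!
# The oscillation of the sums
-/

set_option autoImplicit false

namespace Pool.Agent.V5helper57.Uni

open Finset Filter Topology MeasureTheory ProbabilityTheory Pool.Agent.Y722.HS Pool.Agent.X280.BP Pool.Agent.X280.UC
open Pool.Agent.X280.HG
open Pool.Agent.V5helper57.Win Pool.Agent.V5helper57.Gen Pool.Agent.V5helper57.Zet

variable {ι : Type} [Fintype ι] [DecidableEq ι]
variable {a : ∀ p : ℕ, (ι → ZMod p) → ℝ} {G : ∀ p : ℕ, (ι → ZMod p) → Prop} {r C : ℝ}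

/-- The scales. -/
def sc (N i : ℕ) : ℕ := N ^ 2 ^ i

theorem sc_succ (N i : ℕ) : sc N (i + 1) = sc N i ^ 2 := by
  unfold sc
  rw [pow_succ, pow_mul]

theorem sc_zero (N : ℕ) : sc N 0 = N := by simp [sc]

theorem sc_mono {N i j : ℕ} (hN : 1 ≤ N) (h : i ≤ j) : sc N i ≤ sc N j :=
  Nat.pow_le_pow_right hN (Nat.pow_le_pow_right (by norm_num) h)

theorem sc_ge {N : ℕ} (hN : 1 ≤ N) (i : ℕ) : N ≤ sc N i := by
  have := sc_mono hN (Nat.zero_le i)
  rwa [sc_zero] at this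

/-- The blocks. -/
noncomputable def blk (a : ∀ p : ℕ, (ι → ZMod p) → ℝ) (G : ∀ p : ℕ, (ι → ZMod p) → Prop) (n N H : ℕ) : Blk ι n :=
  ⟨fun i => bl (sc N i), sc N n, H, tz a G, fun i => √(VP (tz a G) (bl (sc N i)))⟩

theorem mem_bl {p N : ℕ} : p ∈ bl N ↔ (N + 1 ≤ p ∧ p ≤ N ^ 2) ∧ p.Prime := by
  unfold bl
  rw [Finset.mem_filter, Finset.mem_Ico, Nat.lt_succ_iff]

/-- The standard deviation of a block. -/
theorem block_sd (D : Dat a G r C) : ∀ᶠ N : ℕ in atTop,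
    ((N ^ 2 : ℕ) : ℝ) * √(Real.log ((N ^ 2 : ℕ) : ℝ)) / 12 ≤ √(VP (tz a G) (bl N)) := by
  filter_upwards [block_var D] with N hN
  apply Real.le_sqrt_of_sq_le
  refine le_trans ?_ hN
  have h1 : 0 ≤ Real.log ((N ^ 2 : ℕ) : ℝ) := Real.log_natCast_nonneg _
  have e : (((N ^ 2 : ℕ) : ℝ) * √(Real.log ((N ^ 2 : ℕ) : ℝ)) / 12) ^ 2 =
      ((N ^ 2 : ℕ) : ℝ) ^ 2 * Real.log ((N ^ 2 : ℕ) : ℝ) / 144 := by
    rw [div_pow, mul_pow, Real.sq_sqrt h1]
    norm_num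
  rw [e]
  have h2 : 0 ≤ ((N ^ 2 : ℕ) : ℝ) ^ 2 * Real.log ((N ^ 2 : ℕ) : ℝ) := by positivity
  linarith

theorem block_bd (D : Dat a G r C) (k : ℕ) : ∀ᶠ N : ℕ in atTop, 0 < √(VP (tz a G) (bl N)) ∧
    ∀ p ∈ bl N, ∀ c, |tz a G p c| ≤ √(VP (tz a G) (bl N)) / (k + 1) := by
  filter_upwards [block_sd D, ev_log (1 / (96 * ((k : ℝ) + 1))) (by positivity), eventually_ge_atTop 3] with N hN hlog hN3
  have hNR : (3 : ℝ) ≤ N := by exact_mod_cast hN3
  have h1 : 1 ≤ Real.log ((N ^ 2 : ℕ) : ℝ) := by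
    rw [Real.le_log_iff_exp_le (by positivity)]
    have := Real.exp_one_lt_d9
    push_cast
    nlinarith
  have h2 : ((N ^ 2 : ℕ) : ℝ) / 12 ≤ √(VP (tz a G) (bl N)) := by
    refine le_trans ?_ hN
    have h3 : 1 ≤ √(Real.log ((N ^ 2 : ℕ) : ℝ)) := Real.one_le_sqrt.2 h1
    have h4 : (0 : ℝ) ≤ ((N ^ 2 : ℕ) : ℝ) := by positivity
    nlinarith
  have hpos : 0 < √(VP (tz a G) (bl N)) := by
    refine lt_of_lt_of_le ?_ h2
    push_cast
    positivity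
  refine ⟨hpos, fun p hp c => ?_⟩
  obtain ⟨⟨hp1, hp2⟩, hpp⟩ := mem_bl.1 hp
  refine ((tz_cen D).bd p hpp c).trans ?_
  rw [le_div_iff₀ (by positivity)]
  refine le_trans ?_ h2
  unfold tb
  have hp0 : (0 : ℝ) < p := by exact_mod_cast hpp.pos
  have h3 : √(p : ℝ) ≤ N := by
    rw [Real.sqrt_le_iff]
    exact ⟨by positivity, by exact_mod_cast hp2⟩
  have h4 : Real.log (p : ℝ) ≤ 2 * Real.log N := by
    have h5 : Real.log (p : ℝ) ≤ Real.log ((N ^ 2 : ℕ) : ℝ) := Real.log_le_log hp0 (by exact_mod_cast hp2)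
    push_cast at h5
    rw [Real.log_pow] at h5
    push_cast at h5
    exact h5
  have hl : 0 ≤ Real.log (p : ℝ) := Real.log_natCast_nonneg p
  have hlN : 0 ≤ Real.log (N : ℝ) := Real.log_natCast_nonneg N
  calc 4 * √(p : ℝ) * Real.log p * ((k : ℝ) + 1) ≤ 4 * N * (2 * Real.log N) * ((k : ℝ) + 1) := by gcongr
    _ ≤ 4 * N * (2 * (1 / (96 * ((k : ℝ) + 1)) * N)) * ((k : ℝ) + 1) := by gcongr
    _ = ((N ^ 2 : ℕ) : ℝ) / 12 := by
        push_cast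
        field_simp
        norm_num

theorem blk_ok (D : Dat a G r C) (n k : ℕ) : ∀ᶠ N : ℕ in atTop, ∀ H : ℕ, sc N n ^ k ≤ H → (blk a G n N H).Ok k := by
  obtain ⟨N0, hN0⟩ := Filter.eventually_atTop.1 (block_bd D k)
  filter_upwards [eventually_ge_atTop N0, eventually_ge_atTop k, eventually_ge_atTop 1] with N h1 h2 h3 H hH
  have hb : ∀ i, N0 ≤ sc N i := fun i => h1.trans (sc_ge h3 i)
  have hdis : ∀ i j : Fin n, i < j → Disjoint (bl (sc N i)) (bl (sc N j)) := by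
    intro i j hij
    rw [Finset.disjoint_left]
    intro p hp hp2
    have e1 := (mem_bl.1 hp).1.2
    have e2 := (mem_bl.1 hp2).1.1
    rw [← sc_succ] at e1
    have e3 : sc N (i + 1) ≤ sc N j := sc_mono h3 (by exact_mod_cast hij)
    omega
  refine
    { disj := fun i j hij => ?_
      prime := fun i p hp => (mem_bl.1 hp).2
      le := fun i p hp => ?_
      pos := fun i => (hN0 _ (hb i)).1
      bound := fun i p hp c => (hN0 _ (hb i)).2 p hp c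
      mean := fun i p hp _ => (tz_cen D).mean p (mem_bl.1 hp).2
      var := fun i => ?_
      size := h2.trans (sc_ge h3 n)
      high := hH }
  · rcases lt_or_gt_of_ne hij with h | h
    · exact hdis i j h
    · exact (hdis j i h).symm
  · have e1 := (mem_bl.1 hp).1.2
    rw [← sc_succ] at e1
    exact e1.trans (sc_mono h3 i.2)
  · show VP (tz a G) (bl (sc N i)) = √(VP (tz a G) (bl (sc N i))) ^ 2
    rw [Real.sq_sqrt]
    exact Finset.sum_nonneg fun p _ => vv_nonneg' _ p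

theorem low_part (D : Dat a G r C) {N : ℕ} (hN : 1 ≤ N) (c : ι → ℤ) : |SS (tz a G) 0 (N + 1) c| ≤ 8 * ((N ^ 2 : ℕ) : ℝ) := by
  unfold SS
  refine (Finset.abs_sum_le_sum_abs _ _).trans ?_
  have h1 : ∀ p ∈ (Ico 0 (N + 1)).filter Nat.Prime, |tz a G p (red p c)| ≤ 4 * N * Real.log p := by
    intro p hp
    rw [Finset.mem_filter, Finset.mem_Ico] at hp
    refine ((tz_cen D).bd p hp.2 _).trans ?_
    unfold tb
    have hl : 0 ≤ Real.log (p : ℝ) := Real.log_natCast_nonneg p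
    have h2 : √(p : ℝ) ≤ N := by
      rw [Real.sqrt_le_iff]
      refine ⟨by positivity, ?_⟩
      have h3 : p ≤ N := by omega
      have h4 : p ≤ N ^ 2 := h3.trans (by nlinarith)
      exact_mod_cast h4
    gcongr
  refine (Finset.sum_le_sum h1).trans ?_
  rw [← Finset.mul_sum, theta_Ico]
  have h3 := Chebyshev.theta_le_log4_mul_x (x := (N : ℝ)) (by positivity)
  have h4 : Real.log 4 ≤ 2 := by
    have e : (4 : ℝ) = 2 ^ 2 := by norm_num
    rw [e, Real.log_pow]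
    have := Real.log_two_lt_d9
    push_cast
    linarith
  have h5 : Chebyshev.theta N ≤ 2 * N := h3.trans (by gcongr)
  push_cast
  calc 4 * (N : ℝ) * Chebyshev.theta N ≤ 4 * N * (2 * N) := by gcongr
    _ = 8 * (N : ℝ) ^ 2 := by ring

theorem kmc_block {W : (ι → ℤ) → WeierstrassCurve ℤ} {V : ∀ p : ℕ, (ι → ZMod p) → WeierstrassCurve (ZMod p)}
    (h : Red W V) (D : Dat (trc V) (fun p c => (V p c).Δ ≠ 0) r C) {N : ℕ} (hN : 1 ≤ N) (c : ι → ℤ) :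
    |kmc (W c) (N ^ 2) - SP (tz (trc V) (fun p c => (V p c).Δ ≠ 0)) (bl N) c| ≤
      (38 + 2 * (|r| + 2 * C)) * ((N ^ 2 : ℕ) : ℝ) := by
  have h1 := kmc_near h D (N ^ 2) c
  have h2 := ts_near D (N ^ 2) c
  have h3 := low_part D hN c
  have h4 := SS_add (Z := tz (trc V) (fun p c => (V p c).Δ ≠ 0)) (Nat.zero_le (N + 1))
    (show N + 1 ≤ N ^ 2 + 1 by nlinarith) c
  have h5 : SS (tz (trc V) (fun p c => (V p c).Δ ≠ 0)) (N + 1) (N ^ 2 + 1) c =
      SP (tz (trc V) (fun p c => (V p c).Δ ≠ 0)) (bl N) c := rfl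
  rw [h5] at h4
  rw [h4] at h2
  rw [abs_le] at h1 h2 h3 ⊢
  have e : (38 + 2 * (|r| + 2 * C)) * ((N ^ 2 : ℕ) : ℝ) = 30 * ((N ^ 2 : ℕ) : ℝ) + 2 * (|r| + 2 * C) * ((N ^ 2 : ℕ) : ℝ) +
      8 * ((N ^ 2 : ℕ) : ℝ) := by ring
  rw [e]
  constructor <;> linarith [h1.1, h1.2, h2.1, h2.2, h3.1, h3.2]

/-- The test function. -/
noncomputable def tst (R x : ℝ) : ℝ := max 0 (min 1 (R + 1 - x))

theorem tst_cont (R : ℝ) : Continuous (tst R) := by
  unfold tst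
  fun_prop

theorem tst_nonneg (R x : ℝ) : 0 ≤ tst R x := le_max_left _ _

theorem tst_le (R x : ℝ) : tst R x ≤ 1 := max_le (by norm_num) (min_le_left _ _)

theorem tst_one {R x : ℝ} (h : x ≤ R) : tst R x = 1 := by
  unfold tst
  rw [min_eq_left (by linarith), max_eq_right (by norm_num)]

theorem tst_zero {R x : ℝ} (h : R + 1 ≤ x) : tst R x = 0 := by
  unfold tst
  rw [max_eq_left]
  exact (min_le_right _ _).trans (by linarith)

/-- The sums over several blocks are not all small, on a given side. -/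
theorem side (D : Dat a G r C) {s : ℝ} (hs : s = 1 ∨ s = -1) (R : ℝ) {ε : ℝ} (hε : 0 < ε) :
    ∃ n k : ℕ, ∀ᶠ N : ℕ in atTop, ∀ H : ℕ, sc N n ^ k ≤ H → ∀ (P : (ι → ℤ) → Prop) [DecidablePred P],
      (∀ c, P c → ∀ i : Fin n, s * (blk a G n N H).vec c i ≤ R) → EB H (fun c => if P c then (1 : ℝ) else 0) ≤ ε := by
  classical
  obtain ⟨ρ, hρ⟩ : ∃ ρ : ℝ, ρ = ∫ x, tst R (s * x) ∂(gaussianReal 0 1) := ⟨_, rfl⟩
  have hcont : Continuous fun x : ℝ => tst R (s * x) := (tst_cont R).comp (continuous_const.mul continuous_id)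
  have hρ1 : 0 ≤ ρ ∧ ρ < 1 := by
    rw [hρ]
    rcases hs with rfl | rfl
    · refine gauss_lt (b := R + 1) hcont (fun x => tst_nonneg _ _) (fun x => tst_le _ _) fun x h1 _ => ?_
      rw [one_mul]
      exact tst_zero h1.le
    · refine gauss_lt (b := -(R + 2)) hcont (fun x => tst_nonneg _ _) (fun x => tst_le _ _) fun x _ h2 => ?_
      exact tst_zero (by linarith)
  obtain ⟨n, hn⟩ : ∃ n : ℕ, ρ ^ n < ε / 2 := exists_pow_lt_of_lt_one (half_pos hε) hρ1.2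
  obtain ⟨k, hk⟩ := Blk.weak (ι := ι) (n := n) (fun v => ∏ i, tst R (s * v i)) (continuous_finset_prod _ fun i _ => (tst_cont R).comp (continuous_const.mul (continuous_apply i)))
    (Mb := 1) (fun v => by
      rw [abs_of_nonneg (Finset.prod_nonneg fun i _ => tst_nonneg _ _)]
      exact Finset.prod_le_one (fun i _ => tst_nonneg _ _) fun i _ => tst_le _ _) (half_pos hε)
  refine ⟨n, k, ?_⟩
  filter_upwards [blk_ok D n k] with N hN H hH P _ hP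
  have h1 := hk _ (hN H hH)
  have e1 : ∫ v, ∏ i, tst R (s * v i) ∂(Measure.pi (fun _ : Fin n => gaussianReal 0 1)) = ρ ^ n := by
    rw [integral_fintype_prod_eq_prod (f := fun (_ : Fin n) (x : ℝ) => tst R (s * x)), Finset.prod_const, Finset.card_univ,
      Fintype.card_fin, ← hρ]
  rw [e1] at h1
  have h2 := (abs_le.1 h1).2
  have h3 : EB H (fun c => if P c then (1 : ℝ) else 0) ≤ EB H (fun c => ∏ i, tst R (s * (blk a G n N H).vec c i)) := by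
    refine EB_mono' H _ _ fun c => ?_
    split_ifs with hc
    · rw [Finset.prod_eq_one fun i _ => tst_one (hP c hc i)]
    · exact Finset.prod_nonneg fun i _ => tst_nonneg _ _
  have h4 : (blk a G n N H : Blk ι n).H = H := rfl
  rw [h4] at h2
  linarith

/-- **The oscillation, on one side.** -/
theorem osc_side {W : (ι → ℤ) → WeierstrassCurve ℤ} {V : ∀ p : ℕ, (ι → ZMod p) → WeierstrassCurve (ZMod p)}
    (h : Red W V) (D : Dat (trc V) (fun p c => (V p c).Δ ≠ 0) r C) {s : ℝ} (hs : s = 1 ∨ s = -1) (M : ℝ) {ε : ℝ}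
    (hε : 0 < ε) :
    ∃ w0 : ℕ, ∃ A0 : ℝ, ∀ w : ℕ, w0 ≤ w → ∀ A : ℝ, A0 ≤ A → ∀ H : ℕ, A ^ w ≤ H → ∀ (P : (ι → ℤ) → Prop) [DecidablePred P],
      (∀ c, P c → ∀ y : ℝ, A ≤ y → y ≤ A ^ w → s * kmc (W c) ⌊y⌋₊ < M * (y * √(Real.log y))) →
      EB H (fun c => if P c then (1 : ℝ) else 0) ≤ ε := by
  classical
  have hC := D.C1
  obtain ⟨K, hK⟩ : ∃ K : ℝ, K = 38 + 2 * (|r| + 2 * C) := ⟨_, rfl⟩
  have hK0 : 0 < K := by rw [hK]; positivity
  obtain ⟨n, k, hside⟩ := side D hs (12 * (|M| + 1)) hε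
  obtain ⟨N1, hN1⟩ := Filter.eventually_atTop.1 hside
  have hlog : ∀ᶠ N : ℕ in atTop, K ≤ √(Real.log ((N ^ 2 : ℕ) : ℝ)) := by
    have h1 : Tendsto (fun N : ℕ => √(Real.log ((N ^ 2 : ℕ) : ℝ))) atTop atTop :=
      Real.tendsto_sqrt_atTop.comp (Real.tendsto_log_atTop.comp (tendsto_natCast_atTop_atTop.comp
        (tendsto_pow_atTop (two_ne_zero))))
    exact h1.eventually (eventually_ge_atTop K)
  obtain ⟨N2, hN2⟩ := Filter.eventually_atTop.1 (hlog.and (block_sd D))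
  obtain ⟨A0, hA0⟩ : ∃ A0 : ℝ, A0 = max (N1 : ℝ) (N2 : ℝ) + 2 := ⟨_, rfl⟩
  refine ⟨2 ^ (n + 1) * (k + 1), A0, fun w hw A hA H hH P _ hP => ?_⟩
  have hA2 : 2 ≤ A := by
    have : (0 : ℝ) ≤ max (N1 : ℝ) N2 := le_max_of_le_left (by positivity)
    linarith
  have hA1 : (1 : ℝ) ≤ A := by linarith
  obtain ⟨N, hN⟩ : ∃ N : ℕ, N = ⌈A⌉₊ := ⟨_, rfl⟩
  have hNA : A ≤ N := by rw [hN]; exact Nat.le_ceil A
  have hNA2 : (N : ℝ) ≤ A ^ 2 := by
    rw [hN]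
    have := (Nat.ceil_lt_add_one (show 0 ≤ A by linarith)).le
    nlinarith
  have hNN1 : N1 ≤ N := by
    have h1 : (N1 : ℝ) ≤ N := (le_max_left (N1 : ℝ) N2).trans (by linarith)
    exact_mod_cast h1
  have hNN2 : N2 ≤ N := by
    have h1 : (N2 : ℝ) ≤ N := (le_max_right (N1 : ℝ) N2).trans (by linarith)
    exact_mod_cast h1
  have hN1' : 1 ≤ N := by
    have : (1 : ℝ) ≤ N := hA1.trans hNA
    exact_mod_cast this
  have hscA : ∀ i, (sc N i : ℝ) ≤ A ^ (2 ^ (i + 1)) := by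
    intro i
    unfold sc
    push_cast
    calc (N : ℝ) ^ 2 ^ i ≤ (A ^ 2) ^ 2 ^ i := by gcongr
      _ = A ^ (2 ^ (i + 1)) := by rw [← pow_mul, pow_succ']
  have hH2 : sc N n ^ k ≤ H := by
    have h1 : ((sc N n ^ k : ℕ) : ℝ) ≤ H := by
      push_cast
      calc (sc N n : ℝ) ^ k ≤ (A ^ (2 ^ (n + 1))) ^ k := by
            gcongr
            exact hscA n
        _ = A ^ (2 ^ (n + 1) * k) := by rw [← pow_mul]
        _ ≤ A ^ w := pow_le_pow_right₀ hA1 ((Nat.mul_le_mul_left _ (Nat.le_succ k)).trans hw)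
        _ ≤ H := hH
    exact_mod_cast h1
  refine hN1 N hNN1 H hH2 P fun c hc i => ?_
  obtain ⟨m, hm⟩ : ∃ m, m = sc N i := ⟨_, rfl⟩
  have hm1 : N ≤ m := by rw [hm]; exact sc_ge hN1' i
  obtain ⟨hlK, hsd⟩ := hN2 m (hNN2.trans hm1)
  have hy1 : A ≤ ((m ^ 2 : ℕ) : ℝ) := by
    have h1 : (m : ℝ) ≤ ((m ^ 2 : ℕ) : ℝ) := by
      exact_mod_cast Nat.le_self_pow two_ne_zero m
    have h2 : (N : ℝ) ≤ m := by exact_mod_cast hm1
    linarith
  have hy2 : ((m ^ 2 : ℕ) : ℝ) ≤ A ^ w := by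
    rw [hm, ← sc_succ]
    refine (hscA (i + 1)).trans (pow_le_pow_right₀ hA1 (le_trans ?_ hw))
    have h1 : 2 ^ ((i : ℕ) + 1 + 1) ≤ 2 ^ (n + 1) := Nat.pow_le_pow_right (by norm_num) (by have := i.2; omega)
    exact h1.trans (Nat.le_mul_of_pos_right _ (by omega))
  have h1 := hP c hc _ hy1 hy2
  rw [Nat.floor_natCast] at h1
  have h2 := kmc_block h D (hN1'.trans hm1) c
  rw [← hK] at h2
  obtain ⟨σ, hσ⟩ : ∃ σ : ℝ, σ = √(VP (tz (trc V) (fun p c => (V p c).Δ ≠ 0)) (bl m)) := ⟨_, rfl⟩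
  rw [← hσ] at hsd
  have hL0 : 0 < √(Real.log ((m ^ 2 : ℕ) : ℝ)) := lt_of_lt_of_le hK0 hlK
  have hy0 : 0 < ((m ^ 2 : ℕ) : ℝ) := by linarith
  have hσ0 : 0 < σ := lt_of_lt_of_le (by positivity) hsd
  have hvec : (blk (trc V) (fun p c => (V p c).Δ ≠ 0) n N H).vec c i =
      SP (tz (trc V) (fun p c => (V p c).Δ ≠ 0)) (bl m) c / σ := by
    rw [hm, hσ, hm]
    rfl
  rw [hvec]
  by_contra hcon
  push Not at hcon
  obtain ⟨S, hS⟩ : ∃ S : ℝ, S = SP (tz (trc V) (fun p c => (V p c).Δ ≠ 0)) (bl m) c := ⟨_, rfl⟩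
  rw [← hS] at h2 hcon
  obtain ⟨y, hy⟩ : ∃ y : ℝ, y = ((m ^ 2 : ℕ) : ℝ) := ⟨_, rfl⟩
  obtain ⟨L, hL⟩ : ∃ L : ℝ, L = √(Real.log ((m ^ 2 : ℕ) : ℝ)) := ⟨_, rfl⟩
  rw [← hL] at hsd hlK hL0 h1
  rw [← hy] at hsd h1 h2 hy0
  have h3 : 12 * (|M| + 1) * σ < s * S := by
    rw [← mul_div_assoc, lt_div_iff₀ hσ0] at hcon
    exact hcon
  have h4 : s * S - K * y ≤ s * kmc (W c) (m ^ 2) := by
    rw [abs_le] at h2
    rcases hs with rfl | rfl <;> linarith [h2.1, h2.2]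
  have h5 : (|M| + 1) * (y * L) ≤ 12 * (|M| + 1) * σ := by
    have h6 : 0 ≤ |M| + 1 := by positivity
    have h7 : y * L ≤ 12 * σ := by linarith
    nlinarith
  have h6 : K * y ≤ y * L := by nlinarith
  have h7 : M * (y * L) ≤ |M| * (y * L) := mul_le_mul_of_nonneg_right (le_abs_self M) (by positivity)
  linarith

end Pool.Agent.V5helper57.Uni
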