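import Pool.Agent.V5helper57.Uni.Kmc

/-!
# The uniform upper bound
-/

set_option autoImplicit false

namespace Pool.Agent.V5helper57.Uni

open Finset Filter Topology Pool.Agent.Y722.HS Pool.Agent.X280.BP Pool.Agent.X280.UC Pool.Agent.X280.HG
open Pool.Agent.V5helper57.Win Pool.Agent.V5helper57.Gen Pool.Agent.V5helper57.Zet

variable {ι : Type} [Fintype ι] [DecidableEq ι]

theorem log_two_facts : (1 : ℝ) / 2 ≤ Real.log 2 ∧ Real.log 2 ≤ 1 := by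
  have := Real.log_two_gt_d9
  have := Real.log_two_lt_d9
  constructor <;> linarith

/-- The ratio of the variance and the square of the barrier. -/
theorem ratio {ε : ℝ} {j : ℕ} (hj : 1 ≤ j) :
    (256 * 4 ^ j * (j : ℝ)) / (2 ^ j * ((j : ℝ) / 2) ^ (1 / 2 + ε) / 2) ^ 2 = 1024 * 2 ^ (1 + 2 * ε) * (j : ℝ) ^ (-(2 * ε)) := by
  have hj0 : (0 : ℝ) < j := by exact_mod_cast hj
  have e1 : ((j : ℝ) / 2) ^ (1 / 2 + ε) * ((j : ℝ) / 2) ^ (1 / 2 + ε) = (j : ℝ) * (j : ℝ) ^ (2 * ε) / 2 ^ (1 + 2 * ε) := by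
    rw [← Real.rpow_add (by positivity), Real.div_rpow hj0.le (by norm_num)]
    congr 1
    · rw [show 1 / 2 + ε + (1 / 2 + ε) = 1 + 2 * ε by ring, Real.rpow_add hj0, Real.rpow_one]
    · rw [show 1 / 2 + ε + (1 / 2 + ε) = 1 + 2 * ε by ring]
  have e2 : (2 ^ j * ((j : ℝ) / 2) ^ (1 / 2 + ε) / 2) ^ 2 =
      4 ^ j * (((j : ℝ) / 2) ^ (1 / 2 + ε) * ((j : ℝ) / 2) ^ (1 / 2 + ε)) / 4 := by
    rw [show (4 : ℝ) ^ j = 2 ^ j * 2 ^ j by rw [← mul_pow]; norm_num]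
    ring
  have hp : 0 < (j : ℝ) ^ (2 * ε) := Real.rpow_pos_of_pos hj0 _
  have hp2 : (0 : ℝ) < 2 ^ (1 + 2 * ε) := by positivity
  rw [e2, e1, Real.rpow_neg hj0.le]
  field_simp
  norm_num

theorem pow_small {ε : ℝ} {B k : ℕ} (hk : (B : ℝ) + 2 ≤ 2 * ε * k) {j J0 : ℕ} (hJ0 : 1 ≤ J0) (hj : J0 ≤ j) :
    ((j : ℝ) ^ (-(2 * ε))) ^ k ≤ 1 / (J0 : ℝ) ^ B * (1 / (j : ℝ) ^ 2) := by
  have hj1 : (1 : ℝ) ≤ j := by exact_mod_cast hJ0.trans hj
  have hj0 : (0 : ℝ) < j := by linarith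
  have hJ : (0 : ℝ) < J0 := by exact_mod_cast hJ0
  have hJj : (J0 : ℝ) ≤ j := by exact_mod_cast hj
  rw [← Real.rpow_natCast, ← Real.rpow_mul hj0.le]
  have h1 : (j : ℝ) ^ (-(2 * ε) * (k : ℝ)) ≤ (j : ℝ) ^ (-((B + 2 : ℕ) : ℝ)) := by
    apply Real.rpow_le_rpow_of_exponent_le hj1
    push_cast
    linarith
  refine h1.trans ?_
  rw [Real.rpow_neg hj0.le, Real.rpow_natCast, pow_add, ← one_div, ← one_div_mul_one_div]
  gcongr

theorem upper {W : (ι → ℤ) → WeierstrassCurve ℤ} {V : ∀ p : ℕ, (ι → ZMod p) → WeierstrassCurve (ZMod p)}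
    (h : Red W V) {r C : ℝ} (D : Dat (trc V) (fun p c => (V p c).Δ ≠ 0) r C) {ε : ℝ} (hε : 0 < ε) (B : ℕ) :
    ∃ κ : ℝ, 0 < κ ∧ ∃ M : ℝ, ∀ A : ℝ, 2 ≤ A → ∀ H : ℕ, ∀ (P : (ι → ℤ) → Prop) [DecidablePred P],
      (∀ c, P c → ∃ y : ℝ, A ≤ y ∧ y ≤ (H : ℝ) ^ κ ∧ y * Real.log y ^ (1 / 2 + ε) < |kmc (W c) ⌊y⌋₊|) →
      EB H (fun c => if P c then (1 : ℝ) else 0) ≤ M / Real.log A ^ B := by
  classical
  have hC := D.C1
  obtain ⟨k, hk2, hkB⟩ : ∃ k : ℕ, 2 ≤ k ∧ (B : ℝ) + 2 ≤ 2 * ε * k := by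
    obtain ⟨n, hn⟩ := exists_nat_ge (((B : ℝ) + 2) / (2 * ε))
    refine ⟨n + 2, by omega, ?_⟩
    rw [div_le_iff₀ (by positivity)] at hn
    push_cast
    nlinarith
  have hk0 : (0 : ℝ) < k := by exact_mod_cast (by omega : 0 < k)
  obtain ⟨K1, hK1⟩ : ∃ K : ℝ, K = 30 + 2 * (|r| + 2 * C) := ⟨_, rfl⟩
  have hK10 : 0 < K1 := by rw [hK1]; positivity
  obtain ⟨d, hd⟩ : ∃ d : ℕ, d = Fintype.card ι := ⟨_, rfl⟩
  obtain ⟨T, hT⟩ : ∃ T : ℝ, T = ∑' n : ℕ, 1 / (n : ℝ) ^ 2 := ⟨_, rfl⟩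
  have hsT : Summable (fun n : ℕ => 1 / (n : ℝ) ^ 2) := Real.summable_one_div_nat_pow.2 (by norm_num)
  obtain ⟨K2, hK2⟩ : ∃ K : ℝ, K = 1024 * 2 ^ (1 + 2 * ε) := ⟨_, rfl⟩
  have hK20 : 0 < K2 := by rw [hK2]; positivity
  have hlim : ∀ᶠ y : ℝ in atTop, 2 * K1 ≤ Real.log y ^ (1 / 2 + ε) :=
    ((tendsto_rpow_atTop (show 0 < 1 / 2 + ε by positivity)).comp Real.tendsto_log_atTop).eventually
      (eventually_ge_atTop _)
  obtain ⟨A0', hA0'⟩ := Filter.eventually_atTop.1 hlim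
  obtain ⟨A0, hA0⟩ : ∃ A0 : ℝ, A0 = max A0' (2 ^ d * 8 ^ k) + 2 := ⟨_, rfl⟩
  have hA1 : ∀ y : ℝ, A0 ≤ y → 2 * K1 ≤ Real.log y ^ (1 / 2 + ε) := by
    intro y hy
    apply hA0'
    have := le_max_left A0' (2 ^ d * 8 ^ k)
    linarith
  have hA2 : (2 : ℝ) ^ d * 8 ^ k ≤ A0 := by
    have := le_max_right A0' ((2 : ℝ) ^ d * 8 ^ k)
    linarith
  have hA3 : 2 ≤ A0 := by
    have : (0 : ℝ) ≤ 2 ^ d * 8 ^ k := by positivity
    have := le_max_right A0' ((2 : ℝ) ^ d * 8 ^ k)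
    linarith
  have hT0 : 0 ≤ T := by rw [hT]; exact tsum_nonneg fun n => by positivity
  have hlA0 : 0 < Real.log A0 := Real.log_pos (by linarith)
  have hmk := mk_nonneg k
  refine ⟨1 / (6 * k), by positivity, mk k * K2 ^ k * T * 2 ^ B + Real.log A0 ^ B, fun A hA H P _ hP => ?_⟩
  have hlA : 0 < Real.log A := Real.log_pos (by linarith)
  rcases lt_or_ge A A0 with hAA | hAA
  · have h1 : EB H (fun c => if P c then (1 : ℝ) else 0) ≤ 1 := by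
      refine (EB_mono' H _ (fun _ => (1 : ℝ)) fun c => by split_ifs <;> norm_num).trans ?_
      exact (EB_const H 1).le
    refine h1.trans ?_
    rw [le_div_iff₀ (by positivity), one_mul]
    have h2 : Real.log A ^ B ≤ Real.log A0 ^ B := pow_le_pow_left₀ hlA.le (Real.log_le_log (by linarith) hAA.le) B
    have h3 : 0 ≤ mk k * K2 ^ k * T * 2 ^ B := by positivity
    linarith
  by_cases hne : ∃ c, P c
  swap
  · push Not at hne
    have h1 : EB H (fun c => if P c then (1 : ℝ) else 0) = 0 := by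
      have : (fun c => if P c then (1 : ℝ) else 0) = fun _ => (0 : ℝ) := by
        funext c
        rw [if_neg (hne c)]
      rw [this]
      exact EB_const H 0
    rw [h1]
    positivity
  obtain ⟨c0, hc0⟩ := hne
  obtain ⟨y0, hy0, hyH, _⟩ := hP c0 hc0
  have hHA : A0 ≤ (H : ℝ) ^ (1 / (6 * (k : ℝ))) := hAA.trans (hy0.trans hyH)
  obtain ⟨R, hR⟩ : ∃ R : ℝ, R = (H : ℝ) ^ (1 / (6 * (k : ℝ))) := ⟨_, rfl⟩
  rw [← hR] at hHA hyH
  have hR2 : 2 ≤ R := hA3.trans hHA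
  have hRp : R ^ (6 * k) = H := by
    rw [hR, ← Real.rpow_natCast, ← Real.rpow_mul (by positivity)]
    push_cast
    rw [one_div_mul_cancel (by positivity), Real.rpow_one]
  obtain ⟨J0, hJ0⟩ : ∃ J : ℕ, J = Nat.log 2 ⌊A⌋₊ := ⟨_, rfl⟩
  obtain ⟨J1, hJ1⟩ : ∃ J : ℕ, J = Nat.log 2 ⌊R⌋₊ := ⟨_, rfl⟩
  have hfl : ∀ y : ℝ, 2 ≤ y → 2 ≤ ⌊y⌋₊ := fun y hy => Nat.le_floor (by exact_mod_cast hy)
  have hJ0p : 1 ≤ J0 := by
    rw [hJ0]
    exact Nat.log_pos (by norm_num) (hfl A hA)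
  have hJA : Real.log A / 2 ≤ J0 := by
    have h1 : A < ((2 ^ (J0 + 1) : ℕ) : ℝ) := by
      have h2 := Nat.lt_floor_add_one A
      have h3 : ⌊A⌋₊ + 1 ≤ 2 ^ (J0 + 1) := by
        rw [hJ0]
        exact Nat.lt_pow_succ_log_self (by norm_num) _
      have h4 : ((⌊A⌋₊ + 1 : ℕ) : ℝ) ≤ ((2 ^ (J0 + 1) : ℕ) : ℝ) := by exact_mod_cast h3
      push_cast at h4 ⊢
      linarith
    have h2 : Real.log A ≤ (J0 + 1) * Real.log 2 := by
      have h3 := Real.log_le_log (by linarith) h1.le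
      push_cast at h3
      rw [Real.log_pow] at h3
      push_cast at h3
      exact h3
    have h3 := log_two_facts.2
    have h4 : (1 : ℝ) ≤ J0 := by exact_mod_cast hJ0p
    nlinarith
  have hx : 2 ^ Fintype.card ι * (2 ^ (J1 + 1)) ^ (3 * k) ≤ 2 * H + 1 := by
    have h1 : ((2 ^ (J1 + 1) : ℕ) : ℝ) ≤ 2 * R := by
      have h2 : 2 ^ J1 ≤ ⌊R⌋₊ := by
        rw [hJ1]
        exact Nat.pow_log_le_self 2 (by have := hfl R hR2; omega)
      have h3 : ((2 ^ J1 : ℕ) : ℝ) ≤ R := le_trans (by exact_mod_cast h2) (Nat.floor_le (by linarith))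
      rw [pow_succ]
      push_cast at h3 ⊢
      linarith
    have h4 : ((2 ^ Fintype.card ι * (2 ^ (J1 + 1)) ^ (3 * k) : ℕ) : ℝ) ≤ ((2 * H + 1 : ℕ) : ℝ) := by
      push_cast at h1 ⊢
      rw [← hd]
      calc (2 : ℝ) ^ d * ((2 : ℝ) ^ (J1 + 1)) ^ (3 * k) ≤ 2 ^ d * (2 * R) ^ (3 * k) := by gcongr
        _ = (2 ^ d * 8 ^ k) * R ^ (3 * k) := by
            rw [mul_pow, pow_mul 2 3 k]
            norm_num
            ring
        _ ≤ R * R ^ (3 * k) := by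
            have := hA2.trans hHA
            gcongr
        _ ≤ R ^ (3 * k) * R ^ (3 * k) := by
            have : R ≤ R ^ (3 * k) := le_self_pow₀ (by linarith) (by omega)
            gcongr
        _ = H := by rw [← hRp]; ring
        _ ≤ 2 * H + 1 := by linarith [show (0 : ℝ) ≤ H by positivity]
    exact_mod_cast h4
  have hbar := barrier (tz_cen D) (k := k) (x := 2 ^ (J1 + 1)) (H := H) hk2 Nat.one_le_two_pow hx (Icc J0 J1)
    (fun j => 2 ^ (j + 1)) (fun j hj => by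
      rw [Finset.mem_Icc] at hj
      exact Nat.pow_le_pow_right (by norm_num) (by omega))
    (fun j => 2 ^ j * ((j : ℝ) / 2) ^ (1 / 2 + ε) / 2) (fun j => 256 * 4 ^ j * (j : ℝ))
    (fun j hj => by
      rw [Finset.mem_Icc] at hj
      have : (0 : ℝ) < j := by exact_mod_cast (by omega : 0 < j)
      positivity)
    (fun j hj => by
      rw [Finset.mem_Icc] at hj
      have hj1 : (1 : ℝ) ≤ j := by exact_mod_cast (by omega : 1 ≤ j)
      have h1 := (BB_mono tb (le_refl 0) (Nat.le_succ (2 ^ (j + 1)))).trans (tb_BB (2 ^ (j + 1)))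
      refine h1.trans ?_
      push_cast
      rw [Real.log_pow]
      have h2 := log_two_facts.2
      have h20 := log_two_facts.1
      push_cast
      have e : 32 * ((2 : ℝ) ^ (j + 1)) ^ 2 = 128 * 4 ^ j := by
        rw [show (4 : ℝ) ^ j = 2 ^ j * 2 ^ j by rw [← mul_pow]; norm_num, pow_succ' (2 : ℝ) j]
        ring
      rw [e]
      have h3 : ((j : ℝ) + 1) * Real.log 2 ≤ 2 * j := by nlinarith
      calc 128 * (4 : ℝ) ^ j * (((j : ℝ) + 1) * Real.log 2) ≤ 128 * (4 : ℝ) ^ j * (2 * j) := by gcongr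
        _ = 256 * 4 ^ j * j := by ring)
    P (fun c hc => by
      obtain ⟨y, hyA, hyR, hy⟩ := hP c hc
      rw [← hR] at hyR
      have hy2 : 2 ≤ y := hA.trans hyA
      have hf := hfl y hy2
      refine ⟨Nat.log 2 ⌊y⌋₊, ?_, ⌊y⌋₊ + 1, ?_, ?_⟩
      · rw [Finset.mem_Icc, hJ0, hJ1]
        exact ⟨Nat.log_mono_right (Nat.floor_mono hyA), Nat.log_mono_right (Nat.floor_mono hyR)⟩
      · exact Nat.lt_pow_succ_log_self (by norm_num) _
      · obtain ⟨j, hj⟩ : ∃ j, j = Nat.log 2 ⌊y⌋₊ := ⟨_, rfl⟩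
        rw [← hj]
        have hj1 : 1 ≤ j := by rw [hj]; exact Nat.log_pos (by norm_num) hf
        have hj0 : (0 : ℝ) < j := by exact_mod_cast hj1
        have h2j : (2 : ℝ) ^ j ≤ y := by
          have h1 : ((2 ^ j : ℕ) : ℝ) ≤ ⌊y⌋₊ := by
            rw [hj]
            exact_mod_cast Nat.pow_log_le_self 2 (by omega)
          push_cast at h1
          exact h1.trans (Nat.floor_le (by linarith))
        have hly : (j : ℝ) / 2 ≤ Real.log y := by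
          have h1 := Real.log_le_log (by positivity) h2j
          rw [Real.log_pow] at h1
          have := log_two_facts.1
          nlinarith
        have h1 := kmc_near h D ⌊y⌋₊ c
        have h2 := ts_near D ⌊y⌋₊ c
        have h3 : |kmc (W c) ⌊y⌋₊| ≤ |SS (tz (trc V) (fun p c => (V p c).Δ ≠ 0)) 0 (⌊y⌋₊ + 1) c| + K1 * y := by
          have hfy : ((⌊y⌋₊ : ℕ) : ℝ) ≤ y := Nat.floor_le (by linarith)
          have e : kmc (W c) ⌊y⌋₊ = (kmc (W c) ⌊y⌋₊ - ts (trc V) (fun p c => (V p c).Δ ≠ 0) ⌊y⌋₊ c) +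
              (ts (trc V) (fun p c => (V p c).Δ ≠ 0) ⌊y⌋₊ c - SS (tz (trc V) (fun p c => (V p c).Δ ≠ 0)) 0 (⌊y⌋₊ + 1) c) +
              SS (tz (trc V) (fun p c => (V p c).Δ ≠ 0)) 0 (⌊y⌋₊ + 1) c := by ring
          rw [e]
          refine (abs_add_le _ _).trans ?_
          have h4 := abs_add_le (kmc (W c) ⌊y⌋₊ - ts (trc V) (fun p c => (V p c).Δ ≠ 0) ⌊y⌋₊ c)
            (ts (trc V) (fun p c => (V p c).Δ ≠ 0) ⌊y⌋₊ c - SS (tz (trc V) (fun p c => (V p c).Δ ≠ 0)) 0 (⌊y⌋₊ + 1) c)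
          have h5 : 0 ≤ |r| + 2 * C := by positivity
          rw [hK1]
          nlinarith
        have h4 := hA1 y (hAA.trans hyA)
        have h5 : K1 * y ≤ y * Real.log y ^ (1 / 2 + ε) / 2 := by nlinarith
        have h6 : 2 ^ j * ((j : ℝ) / 2) ^ (1 / 2 + ε) / 2 ≤ y * Real.log y ^ (1 / 2 + ε) / 2 := by
          have h7 : ((j : ℝ) / 2) ^ (1 / 2 + ε) ≤ Real.log y ^ (1 / 2 + ε) :=
            Real.rpow_le_rpow (by positivity) hly (by positivity)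
          gcongr
        linarith)
  refine hbar.trans ?_
  have hsum : ∑ j ∈ Icc J0 J1, ((256 * 4 ^ j * (j : ℝ)) / (2 ^ j * ((j : ℝ) / 2) ^ (1 / 2 + ε) / 2) ^ 2) ^ k ≤
      K2 ^ k * (1 / (J0 : ℝ) ^ B * T) := by
    have h1 : ∀ j ∈ Icc J0 J1, ((256 * 4 ^ j * (j : ℝ)) / (2 ^ j * ((j : ℝ) / 2) ^ (1 / 2 + ε) / 2) ^ 2) ^ k ≤
        K2 ^ k * (1 / (J0 : ℝ) ^ B * (1 / (j : ℝ) ^ 2)) := by
      intro j hj
      rw [Finset.mem_Icc] at hj
      rw [ratio (hJ0p.trans hj.1), ← hK2, mul_pow]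
      exact mul_le_mul_of_nonneg_left (pow_small hkB hJ0p hj.1) (by positivity)
    refine (Finset.sum_le_sum h1).trans ?_
    rw [← Finset.mul_sum, ← Finset.mul_sum]
    have h2 : ∑ j ∈ Icc J0 J1, 1 / (j : ℝ) ^ 2 ≤ T := by
      rw [hT]
      exact hsT.sum_le_tsum _ fun n _ => by positivity
    gcongr
  have h7 : 1 / (J0 : ℝ) ^ B ≤ 2 ^ B / Real.log A ^ B := by
    have h8 : (Real.log A / 2) ^ B ≤ (J0 : ℝ) ^ B := pow_le_pow_left₀ (by positivity) hJA B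
    rw [div_pow, div_le_iff₀ (by positivity)] at h8
    rw [div_le_div_iff₀ (by positivity) (by positivity)]
    linarith
  calc mk k * ∑ j ∈ Icc J0 J1, ((256 * 4 ^ j * (j : ℝ)) / (2 ^ j * ((j : ℝ) / 2) ^ (1 / 2 + ε) / 2) ^ 2) ^ k
      ≤ mk k * (K2 ^ k * (1 / (J0 : ℝ) ^ B * T)) := by gcongr
    _ ≤ mk k * (K2 ^ k * (2 ^ B / Real.log A ^ B * T)) := by gcongr
    _ = mk k * K2 ^ k * T * 2 ^ B / Real.log A ^ B := by ring
    _ ≤ (mk k * K2 ^ k * T * 2 ^ B + Real.log A0 ^ B) / Real.log A ^ B := by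
        gcongr
        have : 0 ≤ Real.log A0 ^ B := by positivity
        linarith

end Pool.Agent.V5helper57.Uni
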