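import Pool.Agent.V5helper57.Uni.Blk

/-!
# The variance of a block of primes
-/

set_option autoImplicit false

namespace Pool.Agent.V5helper57.Uni

open Finset Filter Topology Pool.Agent.Y722.HS Pool.Agent.X280.BP Pool.Agent.X280.UC Pool.Agent.X280.HG
open Pool.Agent.V5helper57.Win Pool.Agent.V5helper57.Gen Pool.Agent.V5helper57.Zet

variable {ι : Type} [Fintype ι] [DecidableEq ι]
variable {a : ∀ p : ℕ, (ι → ZMod p) → ℝ} {G : ∀ p : ℕ, (ι → ZMod p) → Prop} {r C : ℝ}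

/-- The primes in `(N, N ^ 2]`. -/
def bl (N : ℕ) : Finset ℕ := (Ico (N + 1) (N ^ 2 + 1)).filter Nat.Prime

theorem ev_log (η : ℝ) (hη : 0 < η) : ∀ᶠ N : ℕ in atTop, Real.log N ≤ η * N := by
  have h := (Asymptotics.isLittleO_iff.1 Real.isLittleO_log_id_atTop) hη
  have h2 := tendsto_natCast_atTop_atTop (R := ℝ) |>.eventually h
  filter_upwards [h2] with N hN
  simp only [id, Real.norm_eq_abs] at hN
  rw [abs_of_nonneg (Real.log_natCast_nonneg N), abs_of_nonneg (Nat.cast_nonneg N)] at hN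
  exact hN

theorem theta_Ico (m : ℕ) : ∑ p ∈ (Ico 0 (m + 1)).filter Nat.Prime, Real.log (p : ℝ) = Chebyshev.theta m := by
  rw [Chebyshev.theta_eq_sum_Icc, Nat.floor_natCast]
  congr 1

/-- A lower bound for the sum of `log p` over the primes in `(X / 8, X]`. -/
theorem theta_low : ∀ᶠ N : ℕ in atTop,
    ((N ^ 2 : ℕ) : ℝ) / 4 ≤ ∑ p ∈ (Ico (N ^ 2 / 8 + 1) (N ^ 2 + 1)).filter Nat.Prime, Real.log (p : ℝ) := by
  filter_upwards [ev_log (1 / 64) (by norm_num), eventually_ge_atTop 64] with N hN hN1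
  have hNR : (64 : ℝ) ≤ N := by exact_mod_cast hN1
  have h1 := Chebyshev.theta_ge (N ^ 2)
  have h2 := Chebyshev.theta_le_log4_mul_x (x := ((N ^ 2 / 8 : ℕ) : ℝ)) (by positivity)
  have hsp := Ico_prime_split (fun p => Real.log (p : ℝ)) (Nat.add_le_add_right (Nat.div_le_self (N ^ 2) 8) 1)
  rw [theta_Ico, theta_Ico] at hsp
  have h3 : ((N ^ 2 / 8 : ℕ) : ℝ) ≤ (N : ℝ) ^ 2 / 8 := by
    have := @Nat.cast_div_le ℝ _ _ _ (N ^ 2) 8
    push_cast at this ⊢
    exact this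
  have h4 : Real.log 4 = 2 * Real.log 2 := by
    rw [show (4 : ℝ) = 2 ^ 2 by norm_num, Real.log_pow]
    push_cast
    ring
  have h5 : √((N ^ 2 : ℕ) : ℝ) = N := by
    push_cast
    rw [Real.sqrt_sq (by positivity)]
  have h6 : Real.log ((N ^ 2 : ℕ) : ℝ) = 2 * Real.log N := by
    push_cast
    rw [Real.log_pow]
    push_cast
    ring
  have h7 : Real.log (((N ^ 2 : ℕ) : ℝ) + 1) ≤ 1 + 2 * Real.log N := by
    have e : ((N ^ 2 : ℕ) : ℝ) + 1 ≤ 2 * ((N ^ 2 : ℕ) : ℝ) := by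
      push_cast
      nlinarith
    refine (Real.log_le_log (by positivity) e).trans ?_
    rw [Real.log_mul (by norm_num) (by positivity), h6]
    have := log_two_facts.2
    linarith
  rw [h5, h6] at h1
  have hl := Real.log_two_gt_d9
  have hlN : 0 ≤ Real.log (N : ℝ) := Real.log_natCast_nonneg N
  have h8 : 2 * (N : ℝ) * (2 * Real.log N) ≤ (N : ℝ) ^ 2 / 16 := by nlinarith
  have h9 : Real.log (((N ^ 2 : ℕ) : ℝ) + 1) ≤ (N : ℝ) ^ 2 / 16 := by nlinarith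
  have h10 : Chebyshev.theta ((N ^ 2 / 8 : ℕ) : ℝ) ≤ Real.log 2 * (N : ℝ) ^ 2 / 4 := by
    rw [h4] at h2
    have h11 := mul_le_mul_of_nonneg_left h3 (show 0 ≤ 2 * Real.log 2 by linarith)
    linarith
  have h12 : (0.69 : ℝ) * (N : ℝ) ^ 2 ≤ Real.log 2 * (N : ℝ) ^ 2 := by
    have : (0.69 : ℝ) ≤ Real.log 2 := by linarith
    nlinarith [sq_nonneg (N : ℝ)]
  have hq : ((N ^ 2 : ℕ) : ℝ) = (N : ℝ) ^ 2 := by push_cast; rfl
  rw [hsp] at h1
  rw [hq] at h1 h9 ⊢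
  linarith

theorem vv_nonneg' (Z : ∀ p : ℕ, (ι → ZMod p) → ℝ) (p : ℕ) : 0 ≤ vv Z p := by
  unfold vv
  split_ifs
  · exact le_rfl
  · unfold EM
    positivity

/-- **The variance of a block.** -/
theorem block_var (D : Dat a G r C) : ∀ᶠ N : ℕ in atTop,
    ((N ^ 2 : ℕ) : ℝ) ^ 2 * Real.log ((N ^ 2 : ℕ) : ℝ) / 128 ≤ VP (tz a G) (bl N) := by
  obtain ⟨P0, hP5, hP0⟩ := tz_var D
  filter_upwards [theta_low, eventually_ge_atTop P0, eventually_ge_atTop 64] with N hN hNP hN64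
  have hNR : (64 : ℝ) ≤ N := by exact_mod_cast hN64
  have hlN : 0 ≤ Real.log (N : ℝ) := Real.log_natCast_nonneg N
  have h6 : Real.log ((N ^ 2 : ℕ) : ℝ) = 2 * Real.log N := by
    push_cast
    rw [Real.log_pow]
    push_cast
    ring
  have hdiv : N ≤ N ^ 2 / 8 := by
    rw [Nat.le_div_iff_mul_le (by norm_num)]
    nlinarith
  have h1 : ∑ p ∈ (Ico (N ^ 2 / 8 + 1) (N ^ 2 + 1)).filter Nat.Prime, vv (tz a G) p ≤ VP (tz a G) (bl N) := by
    unfold VP bl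
    refine Finset.sum_le_sum_of_subset_of_nonneg ?_ fun p _ _ => vv_nonneg' _ p
    exact Finset.filter_subset_filter _ (Finset.Ico_subset_Ico (by omega) le_rfl)
  refine le_trans ?_ h1
  have h2 : ∀ p ∈ (Ico (N ^ 2 / 8 + 1) (N ^ 2 + 1)).filter Nat.Prime,
      ((N ^ 2 : ℕ) : ℝ) * Real.log N / 16 * Real.log p ≤ vv (tz a G) p := by
    intro p hp
    rw [Finset.mem_filter, Finset.mem_Ico] at hp
    obtain ⟨⟨hp1, hp2⟩, hpp⟩ := hp
    refine le_trans ?_ (hP0 p hpp (by omega))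
    have h3 : ((N ^ 2 : ℕ) : ℝ) / 8 ≤ p := by
      have : N ^ 2 ≤ 8 * p := by omega
      have h4 : ((N ^ 2 : ℕ) : ℝ) ≤ ((8 * p : ℕ) : ℝ) := by exact_mod_cast this
      push_cast at h4 ⊢
      linarith
    have h4 : Real.log (N : ℝ) ≤ Real.log p := by
      apply Real.log_le_log (by linarith)
      exact_mod_cast (by omega : N ≤ p)
    have hlp : 0 ≤ Real.log (p : ℝ) := Real.log_natCast_nonneg p
    calc ((N ^ 2 : ℕ) : ℝ) * Real.log N / 16 * Real.log p = ((N ^ 2 : ℕ) : ℝ) / 8 * Real.log N * Real.log p / 2 := by ring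
      _ ≤ p * Real.log p * Real.log p / 2 := by gcongr
      _ = p * Real.log p ^ 2 / 2 := by ring
  refine le_trans ?_ (Finset.sum_le_sum h2)
  rw [← Finset.mul_sum, h6]
  have h5 : 0 ≤ ((N ^ 2 : ℕ) : ℝ) * Real.log N / 16 := by positivity
  have h7 := mul_le_mul_of_nonneg_left hN h5
  refine le_trans (le_of_eq ?_) h7
  ring

end Pool.Agent.V5helper57.Uni
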